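import Pool.Agent.K3h80.CL.Rt
import Pool.Agent.W571.SD.SB1
import Pool.Agent.H24R2.DZ.Half

set_option autoImplicit false

/-!
# The local cosine law at a good point
-/

namespace Pool.Agent.K3h80.CL

open Complex Filter Topology MeasureTheory Set
open Pool.Agent.H24R2.DZ (NN hc half)
open Pool.Agent.H986R2.K4 (QQ)
open Pool.Agent.W571.SD (toQQ)

/-- Growth of a function whose logarithmic derivative is close to a constant. -/
theorem gron {G G' : ℂ → ℂ} {z lam : ℂ} {θ : ℝ} (hθ : 0 < θ) (hθ1 : θ ≤ 1 / 2) (h0 : G 0 ≠ 0)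
    (hG : ∀ s : ℝ, 0 ≤ s → s ≤ 1 → HasDerivAt G (G' (s * z)) (s * z))
    (hb : ∀ s : ℝ, 0 ≤ s → s ≤ 1 → ‖z * (G' (s * z) - lam * G (s * z))‖ ≤ θ * ‖G (s * z)‖) :
    ‖G z / (G 0 * cexp (lam * z)) - 1‖ ≤ 2 * θ := by
  have hne : ∀ w : ℂ, G 0 * cexp (lam * w) ≠ 0 := fun w => mul_ne_zero h0 (Complex.exp_ne_zero _)
  obtain ⟨f, hf⟩ : ∃ f : ℝ → ℂ, f = fun s : ℝ => G (s * z) / (G 0 * cexp (lam * (s * z))) - 1 := ⟨_, rfl⟩
  obtain ⟨f', hf'⟩ : ∃ f' : ℝ → ℂ, f' = fun s : ℝ =>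
    z * (G' (s * z) - lam * G (s * z)) / (G 0 * cexp (lam * (s * z))) := ⟨_, rfl⟩
  have hd : ∀ s : ℝ, 0 ≤ s → s ≤ 1 → HasDerivAt f (f' s) s := by
    intro s h1 h2
    rw [hf, hf']
    have a1 : HasDerivAt (fun s : ℝ => (s : ℂ) * z) z s := by
      have := (Complex.ofRealCLM.hasDerivAt (x := s)).mul_const z
      simpa using this
    have a2 : HasDerivAt (fun s : ℝ => G (s * z)) (G' (s * z) * z) s :=
      HasDerivAt.comp s (hG s h1 h2) a1
    have a3 : HasDerivAt (fun s : ℝ => G 0 * cexp (lam * (s * z)))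
        (G 0 * (cexp (lam * (s * z)) * (lam * z))) s :=
      ((a1.const_mul lam).cexp).const_mul (G 0)
    have a4 := (a2.div a3 (hne _)).sub_const 1
    refine a4.congr_deriv ?_
    have hE := Complex.exp_ne_zero (lam * (s * z))
    field_simp
  have hfb : ∀ s : ℝ, 0 ≤ s → s ≤ 1 → ‖f' s‖ ≤ θ * ‖f s‖ + θ := by
    intro s h1 h2
    have b1 : ‖f' s‖ ≤ θ * ‖G (s * z) / (G 0 * cexp (lam * (s * z)))‖ := by
      rw [hf']
      simp only
      rw [norm_div, norm_div, ← mul_div_assoc]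
      exact div_le_div_of_nonneg_right (hb s h1 h2) (norm_nonneg _)
    have b2 : ‖G (s * z) / (G 0 * cexp (lam * (s * z)))‖ ≤ ‖f s‖ + 1 := by
      have e : G (s * z) / (G 0 * cexp (lam * (s * z))) = f s + 1 := by
        rw [hf]; ring
      rw [e]
      refine (norm_add_le _ _).trans ?_
      rw [norm_one]
    calc _ ≤ θ * (‖f s‖ + 1) := b1.trans (by gcongr)
      _ = _ := by ring
  have hf0 : ‖f 0‖ ≤ 0 := by
    rw [hf]
    simp only [Complex.ofReal_zero, zero_mul, mul_zero, Complex.exp_zero, mul_one]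
    rw [div_self h0, sub_self, norm_zero]
  have hgr := norm_le_gronwallBound_of_norm_deriv_right_le (f := f) (f' := f') (δ := 0) (K := θ) (ε := θ)
    (a := 0) (b := 1) (fun s hs => (hd s hs.1 hs.2).continuousAt.continuousWithinAt)
    (fun s hs => (hd s hs.1 hs.2.le).hasDerivWithinAt) hf0
    (fun s hs => hfb s hs.1 hs.2.le) 1 (right_mem_Icc.2 zero_le_one)
  rw [gronwallBound_of_K_ne_0 hθ.ne'] at hgr
  simp only [zero_mul, sub_zero, mul_one, zero_add] at hgr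
  rw [div_self hθ.ne', one_mul] at hgr
  have h2 : Real.exp θ - 1 ≤ 2 * θ := by
    have h3 := Real.abs_exp_sub_one_le (x := θ) (by rw [abs_of_pos hθ]; linarith)
    rw [abs_of_pos hθ] at h3
    exact (le_abs_self _).trans h3
  have e : f 1 = G z / (G 0 * cexp (lam * z)) - 1 := by
    rw [hf]
    simp
  rw [← e]
  exact hgr.trans h2

/-- **The local cosine law.** -/
theorem core {K ε : ℝ} (hK : 0 < K) (hε : 0 < ε) : ∃ η : ℝ, ∃ n0 : ℕ, 0 < η ∧ 1 ≤ n0 ∧
    ∀ (n : ℕ) (F : ℂ → ℂ), n0 ≤ n → NN n η F → ∃ ρ φ : ℝ, 0 < ρ ∧ ∀ w : ℂ, ‖w‖ ≤ K →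
      ‖iteratedDeriv n F (I * w / n) / (I ^ n * ρ) - Complex.cos (φ + w)‖ ≤ ε := by
  obtain ⟨ε1, hε1⟩ : ∃ ε1, ε1 = min 1 (ε * Real.exp (-K) / 2) := ⟨_, rfl⟩
  have hε10 : 0 < ε1 := by rw [hε1]; exact lt_min one_pos (by positivity)
  have hε11 : ε1 ≤ 1 := by rw [hε1]; exact min_le_left _ _
  have hε12 : ε1 ≤ ε * Real.exp (-K) / 2 := by rw [hε1]; exact min_le_right _ _
  obtain ⟨κ1, η, n0, hκ1, hη, hn0, hrt⟩ := rt1 (κ := 1 / 2) (R := 18) (κ0 := ε1 / (4 * K))
    (by norm_num) le_rfl (by norm_num) (by positivity)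
  obtain ⟨n1, hn1⟩ := exists_nat_ge (K / min κ1 (1 / 2))
  obtain ⟨n2, hn2⟩ := exists_nat_ge (4 * K / ε1)
  refine ⟨min η (1 / 200), max n0 (max n1 n2), lt_min hη (by norm_num), hn0.trans (le_max_left _ _), ?_⟩
  intro n F hn hN
  have hnn0 : n0 ≤ n := (le_max_left _ _).trans hn
  have hnn1 : (n1 : ℝ) ≤ n := by exact_mod_cast ((le_max_left _ _).trans (le_max_right _ _)).trans hn
  have hnn2 : (n2 : ℝ) ≤ n := by exact_mod_cast ((le_max_right _ _).trans (le_max_right _ _)).trans hn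
  have hn1' : 1 ≤ n := hn0.trans hnn0
  have hnp : (1 : ℝ) ≤ n := by exact_mod_cast hn1'
  have hn0' : (0 : ℝ) < n := by linarith
  have hnc : (n : ℂ) ≠ 0 := by exact_mod_cast hn0'.ne'
  have hmin : 0 < min κ1 (1 / 2) := lt_min hκ1 (by norm_num)
  have hKn : K / n ≤ min κ1 (1 / 2) := by
    rw [div_le_iff₀ hn0']
    have := (div_le_iff₀ hmin).1 (hn1.trans hnn1)
    linarith
  have hKn1 : K / n ≤ κ1 := hKn.trans (min_le_left _ _)
  have hKn2 : K / n ≤ 1 / 2 := hKn.trans (min_le_right _ _)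
  have hKn3 : 4 * K / n ≤ ε1 := by
    rw [div_le_iff₀ hn0']
    have := (div_le_iff₀ hε10).1 (hn2.trans hnn2)
    linarith
  have hη0 : 0 ≤ min η (1 / 200) := le_min hη.le (by norm_num)
  have hQ : QQ (1 / 2) 18 n η F := by
    have h1 := toQQ hη0 (min_le_right _ _) (min_le_left _ _) hN 0 (by norm_num)
    simpa using h1
  have hr := hrt n F hnn0 hQ
  obtain ⟨G, hG⟩ : ∃ G : ℂ → ℂ, G = hc F (n + 1) := ⟨_, rfl⟩
  have hG0 : G 0 ≠ 0 := by
    rw [hG]
    exact (hr 0 (by simpa using hκ1.le)).1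
  have hGz : ∀ z : ℂ, ‖z‖ ≤ K / n → ‖G z / (G 0 * cexp ((n + 1) * z)) - 1‖ ≤ ε1 := by
    intro z hz
    have hbound : ∀ s : ℝ, 0 ≤ s → s ≤ 1 → ‖(s : ℂ) * z‖ ≤ K / n := by
      intro s h1 h2
      rw [norm_mul, Complex.norm_real, Real.norm_eq_abs, abs_of_nonneg h1]
      calc s * ‖z‖ ≤ 1 * ‖z‖ := by gcongr
        _ ≤ K / n := by rw [one_mul]; exact hz
    have h1 := gron (G := G) (G' := fun z => (n + 1) * hc F (n + 2) z) (z := z) (lam := n + 1)
      (θ := ε1 / 2) (by positivity) (by linarith) hG0 (fun s h1 h2 => by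
        rw [hG]
        exact (half F n _ hN.diff hN.symm ((hbound s h1 h2).trans_lt (by linarith))).2)
      (fun s h1 h2 => by
        have h3 := hbound s h1 h2
        obtain ⟨h4, h5⟩ := hr _ (h3.trans hKn1)
        have e : z * ((n + 1) * hc F (n + 2) (s * z) - (n + 1) * G (s * z)) =
            z * (n + 1) * (hc F (n + 2) (s * z) / hc F (n + 1) (s * z) - 1) * G (s * z) := by
          have h6 : ∀ a b : ℂ, b ≠ 0 → z * ((n + 1) * a - (n + 1) * b) = z * (n + 1) * (a / b - 1) * b := by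
            intro a b hb
            field_simp
          rw [hG]
          exact h6 _ _ h4
        rw [e, norm_mul]
        refine mul_le_mul_of_nonneg_right ?_ (norm_nonneg _)
        rw [norm_mul, norm_mul]
        have h6 : ‖((n : ℂ) + 1)‖ = n + 1 := by
          have : ((n : ℂ) + 1) = ((n + 1 : ℝ) : ℂ) := by push_cast; rfl
          rw [this, Complex.norm_real, Real.norm_eq_abs, abs_of_nonneg (by positivity)]
        rw [h6]
        calc ‖z‖ * (n + 1) * ‖hc F (n + 2) (s * z) / hc F (n + 1) (s * z) - 1‖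
            ≤ (K / n) * (2 * n) * (ε1 / (4 * K)) := by
              gcongr
              linarith
          _ = ε1 / 2 := by field_simp; ring)
    calc _ ≤ 2 * (ε1 / 2) := h1
      _ = ε1 := by ring
  -- polar form of `G 0 / I ^ n`
  have hIn : (I ^ n : ℂ) ≠ 0 := pow_ne_zero _ I_ne_zero
  obtain ⟨u, hu⟩ : ∃ u : ℂ, u = G 0 / I ^ n := ⟨_, rfl⟩
  have hu0 : u ≠ 0 := by rw [hu]; exact div_ne_zero hG0 hIn
  have hun : 0 < ‖u‖ := norm_pos_iff.2 hu0
  obtain ⟨φ, hφ⟩ : ∃ φ : ℝ, φ = Complex.arg u := ⟨_, rfl⟩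
  have hpol : (‖u‖ : ℂ) * cexp (φ * I) = u := by
    rw [hφ]; exact Complex.norm_mul_exp_arg_mul_I u
  have hG0u : G 0 = I ^ n * ((‖u‖ : ℂ) * cexp (φ * I)) := by
    rw [hpol, hu]; field_simp
  have hfac : (0 : ℝ) < (n.factorial : ℝ) := by positivity
  refine ⟨2 * n.factorial * ‖u‖, φ, by positivity, ?_⟩
  intro w hw
  have hz1 : ‖I * w / n‖ ≤ K / n := by
    rw [norm_div, norm_mul, Complex.norm_I, one_mul, Complex.norm_natCast]
    gcongr
  have hz2 : ‖-((starRingEnd ℂ) (I * w / n))‖ ≤ K / n := by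
    rw [norm_neg, RCLike.norm_conj]; exact hz1
  have hhalf := (half F n (I * w / n) hN.diff hN.symm (hz1.trans_lt (by linarith))).1
  obtain ⟨A, hA⟩ : ∃ A : ℂ, A = G (I * w / n) / (G 0 * cexp ((n + 1) * (I * w / n))) := ⟨_, rfl⟩
  obtain ⟨B, hB⟩ : ∃ B : ℂ, B = G (-((starRingEnd ℂ) (I * w / n))) /
    (G 0 * cexp ((n + 1) * (-((starRingEnd ℂ) (I * w / n))))) := ⟨_, rfl⟩
  have hA1 : ‖A - 1‖ ≤ ε1 := by rw [hA]; exact hGz _ hz1
  have hB1 : ‖(starRingEnd ℂ) B - 1‖ ≤ ε1 := by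
    have : (starRingEnd ℂ) B - 1 = (starRingEnd ℂ) (B - 1) := by simp
    rw [this, RCLike.norm_conj, hB]
    exact hGz _ hz2
  have eA : G (I * w / n) = G 0 * cexp ((n + 1) * (I * w / n)) * A := by
    rw [hA]
    have := Complex.exp_ne_zero ((n + 1) * (I * w / n))
    field_simp
  have eB : (starRingEnd ℂ) (G (-((starRingEnd ℂ) (I * w / n)))) =
      (starRingEnd ℂ) (G 0) * cexp (-((n + 1) * (I * w / n))) * (starRingEnd ℂ) B := by
    have h1 : G (-((starRingEnd ℂ) (I * w / n))) =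
        G 0 * cexp ((n + 1) * (-((starRingEnd ℂ) (I * w / n)))) * B := by
      rw [hB]
      have := Complex.exp_ne_zero ((n + 1) * (-((starRingEnd ℂ) (I * w / n))))
      field_simp
    rw [h1, map_mul, map_mul, ← Complex.exp_conj]
    congr 3
    simp
  have hF : iteratedDeriv n F (I * w / n) = n.factorial * (G 0 * cexp ((n + 1) * (I * w / n)) * A +
      (-1) ^ n * ((starRingEnd ℂ) (G 0) * cexp (-((n + 1) * (I * w / n))) * (starRingEnd ℂ) B)) := by
    have hfc : (n.factorial : ℂ) ≠ 0 := by exact_mod_cast hfac.ne'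
    rw [div_eq_iff hfc] at hhalf
    rw [hhalf, ← hG, eA, eB]
    ring
  have hexp : ∀ σ : ℂ, cexp (σ * ((n + 1) * (I * w / n))) = cexp (σ * (I * w)) * cexp (σ * (I * w / n)) := by
    intro σ
    rw [← Complex.exp_add]
    congr 1
    field_simp
  have hcG : (starRingEnd ℂ) (G 0) * (-1) ^ n = I ^ n * ((‖u‖ : ℂ) * cexp (-(φ * I))) := by
    rw [hG0u, map_mul, map_mul, map_pow, Complex.conj_I, Complex.conj_ofReal, ← Complex.exp_conj,
      map_mul, Complex.conj_I, Complex.conj_ofReal]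
    have e : (-I) ^ n * (-1 : ℂ) ^ n = I ^ n := by
      rw [← mul_pow]; congr 1; ring
    calc _ = ((-I) ^ n * (-1 : ℂ) ^ n) * ((‖u‖ : ℂ) * cexp (φ * -I)) := by ring
      _ = _ := by rw [e]; congr 3; ring
  have key : iteratedDeriv n F (I * w / n) / (I ^ n * ((2 * n.factorial * ‖u‖ : ℝ) : ℂ)) -
      Complex.cos (φ + w) =
      (cexp ((φ + w) * I) * (cexp (I * w / n) * A - 1) +
        cexp (-((φ + w) * I)) * (cexp (-(I * w / n)) * (starRingEnd ℂ) B - 1)) / 2 := by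
    have h1 := hexp 1
    have h2 := hexp (-1)
    rw [one_mul, one_mul, one_mul] at h1
    rw [neg_one_mul, neg_one_mul, neg_one_mul] at h2
    have e1 : iteratedDeriv n F (I * w / n) = I ^ n * (n.factorial * ‖u‖) *
        (cexp ((φ + w) * I) * (cexp (I * w / n) * A) +
        cexp (-((φ + w) * I)) * (cexp (-(I * w / n)) * (starRingEnd ℂ) B)) := by
      have e2 : cexp ((φ + w) * I) = cexp (φ * I) * cexp (I * w) := by
        rw [← Complex.exp_add]; congr 1; ring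
      have e3 : cexp (-((φ + w) * I)) = cexp (-(φ * I)) * cexp (-(I * w)) := by
        rw [← Complex.exp_add]; congr 1; ring
      rw [hF, h1, h2, e2, e3]
      calc _ = n.factorial * (G 0 * (cexp (I * w) * cexp (I * w / n)) * A +
            ((starRingEnd ℂ) (G 0) * (-1) ^ n) * (cexp (-(I * w)) * cexp (-(I * w / n))) *
              (starRingEnd ℂ) B) := by ring
        _ = _ := by rw [hcG, hG0u]; ring
    have hu1 : (‖u‖ : ℂ) ≠ 0 := by exact_mod_cast hun.ne'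
    have hfc : (n.factorial : ℂ) ≠ 0 := by exact_mod_cast hfac.ne'
    rw [e1, Complex.cos]
    push_cast
    have e4 : cexp (-(↑φ + w) * I) = cexp (-((φ + w) * I)) := by congr 1; ring
    rw [e4]
    field_simp
    ring
  rw [key]
  have hx : ‖I * w / n‖ ≤ ε1 / 4 := by
    refine hz1.trans ?_
    have : K / n = 4 * K / n / 4 := by ring
    rw [this]
    linarith
  have hsmall : ∀ (x C : ℂ), ‖x‖ ≤ ε1 / 4 → ‖C - 1‖ ≤ ε1 → ‖cexp x * C - 1‖ ≤ 2 * ε1 := by
    intro x C h1 h2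
    have h3 : ‖cexp x - 1‖ ≤ 2 * ‖x‖ := Complex.norm_exp_sub_one_le (by linarith)
    have h4 : ‖C‖ ≤ 2 := by
      have := norm_add_le (C - 1) 1
      rw [sub_add_cancel, norm_one] at this
      linarith
    have e : cexp x * C - 1 = (cexp x - 1) * C + (C - 1) := by ring
    rw [e]
    refine (norm_add_le _ _).trans ?_
    rw [norm_mul]
    have : ‖cexp x - 1‖ * ‖C‖ ≤ (ε1 / 2) * 2 := by
      gcongr
      linarith
    linarith
  have hEx : ∀ σ : ℝ, |σ| = 1 → ‖cexp (σ * ((φ + w) * I))‖ ≤ Real.exp K := by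
    intro σ hσ
    rw [Complex.norm_exp]
    refine Real.exp_le_exp.2 ?_
    have e : (((σ : ℝ) : ℂ) * ((φ + w) * I)).re = -σ * w.im := by
      simp
    rw [e]
    refine (le_abs_self _).trans ?_
    rw [abs_mul, abs_neg, hσ, one_mul]
    exact (Complex.abs_im_le_norm w).trans hw
  have hE1 := hEx 1 (by norm_num)
  have hE2 := hEx (-1) (by norm_num)
  rw [Complex.ofReal_one, one_mul] at hE1
  have e5 : ((-1 : ℝ) : ℂ) * ((φ + w) * I) = -((φ + w) * I) := by push_cast; ring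
  rw [e5] at hE2
  rw [norm_div]
  have h2 : ‖(2 : ℂ)‖ = 2 := by norm_num
  rw [h2, div_le_iff₀ (by norm_num)]
  refine (norm_add_le _ _).trans ?_
  rw [norm_mul, norm_mul]
  have s1 := hsmall _ A hx hA1
  have s2 := hsmall (-(I * w / n)) ((starRingEnd ℂ) B) (by rw [norm_neg]; exact hx) hB1
  calc _ ≤ Real.exp K * (2 * ε1) + Real.exp K * (2 * ε1) := by gcongr
    _ = Real.exp K * 4 * ε1 := by ring
    _ ≤ Real.exp K * 4 * (ε * Real.exp (-K) / 2) := by gcongr
    _ = ε * 2 * (Real.exp K * Real.exp (-K)) := by ring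
    _ = ε * 2 := by rw [← Real.exp_add, add_neg_cancel, Real.exp_zero, mul_one]

end Pool.Agent.K3h80.CL
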