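import Pool.Agent.K3h80.CL.Win
import Pool.Agent.K3h80.LH.Fin

set_option autoImplicit false

/-!
# The cosine law for completed L-functions and their products
-/

namespace Pool.Agent.K3h80.CL

open Complex MeasureTheory Set Filter Topology
open scoped ComplexConjugate
open Pool.Agent.R838.TW (Sy PL)
open Pool.Agent.R838.LD (HD)
open Pool.Agent.R838.CR (hd_of)
open Pool.Agent.W169.HF (heat Slow)
open Pool.Agent.Y671.GL

theorem pl_wd {κ : ℝ} {X : ℂ → ℂ} (hκ : 1 / 2 ≤ κ) (h : PL κ X) :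
    Wd (fun z => X (z / ((2 * κ : ℝ) : ℂ))) := by
  obtain ⟨H, Z, hG⟩ := h.gy
  obtain ⟨⟨F, hh, hD⟩, -, -⟩ := hd_of κ H X Z hκ hG h.strip h.huge
  have hsy := h.sy
  have hF : F = fun z => X (z / ((2 * κ : ℝ) : ℂ)) := by
    rw [← hD.heat0]
    funext z
    show heat (0 / (2 * κ) ^ 2) X (z / ((2 * κ : ℝ) : ℂ)) = X (z / ((2 * κ : ℝ) : ℂ))
    obtain ⟨K, hK, hslow⟩ := hsy.slow
    obtain ⟨g0, -⟩ := Pool.Agent.Y275.GL.hht X (slow_of hsy.diff hK hslow) hsy.symm hsy.ne h.strip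
    rw [zero_div, g0]
  rw [← hF]
  exact wd_of_hd hD

/-! ## In terms of `Λ` -/

/-- The cosine law for the `m`-th derivative of `Λ` near `a + i t`, at the scale `1 / ω`: up to a constant factor
it is within `ε` of a sine on the disc of radius `K / ω`; its zeros in this disc are on the line `Re s = a` and
simple, their ordinates are, up to `ε / ω`, in an arithmetic progression of difference `π / ω`, and there is
exactly one of them near each term. -/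
structure Law (Λ : ℂ → ℂ) (a K ε ω : ℝ) (m : ℕ) (t : ℝ) : Prop where
  law : ∃ (c : ℂ) (θ : ℝ), c ≠ 0 ∧
    (∀ z : ℂ, ‖z‖ ≤ K → ‖c * iteratedDeriv m Λ (a + I * (t + z / ω)) - Complex.sin (z - θ)‖ ≤ ε) ∧
    (∀ s : ℂ, ‖s - (a + I * t)‖ ≤ K / ω → iteratedDeriv m Λ s = 0 → s.re = a ∧
      iteratedDeriv (m + 1) Λ s ≠ 0 ∧ ∃ k : ℤ, |ω * (s.im - t) - (θ + Real.pi * k)| ≤ ε) ∧
    (∀ k : ℤ, |θ + Real.pi * k| ≤ K → ∃! s : ℂ, iteratedDeriv m Λ s = 0 ∧ s.re = a ∧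
      |ω * (s.im - t) - (θ + Real.pi * k)| ≤ ε)

theorem iter_mul_shift {Λ : ℂ → ℂ} (h : Differentiable ℂ Λ) (v a : ℂ) (n : ℕ) (z : ℂ) :
    iteratedDeriv n (fun z => v * Λ (a + z)) z = v * iteratedDeriv n Λ (a + z) := by
  rw [iteratedDeriv_const_mul_field, iteratedDeriv_comp_const_add]

theorem law_of_cs {Λ : ℂ → ℂ} {v : ℂ} {a K ε : ℝ} (hε : 0 < ε) (hε1 : ε ≤ 1) (hv : v ≠ 0)
    (hΛ : Differentiable ℂ Λ)
    (hs : ∀ z : ℂ, v * Λ (a + -((starRingEnd ℂ) z)) = (starRingEnd ℂ) (v * Λ (a + z)))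
    {ω : ℝ} (hω : 0 < ω) {n : ℕ} {t : ℝ}
    (h : Cs (fun z => v * Λ (a + z)) (K + 2) (ε / 30) ω n t) : Law Λ a K ε ω n t := by
  obtain ⟨ρ, φ, hρ, h1⟩ := h
  have hωc : (ω : ℂ) ≠ 0 := by exact_mod_cast hω.ne'
  have hρc : (ρ : ℂ) ≠ 0 := by exact_mod_cast hρ.ne'
  have hIn : (I ^ n : ℂ) ≠ 0 := pow_ne_zero _ I_ne_zero
  have hXd : Differentiable ℂ (fun z => v * Λ (a + z)) := (hΛ.comp (by fun_prop)).const_mul v
  obtain ⟨z1, z2⟩ := zs_of_cs (ε := ε) (by positivity) (by linarith) (by linarith) hε1 hXd hs hω hρ h1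
  have hiter := iter_mul_shift hΛ v a
  have hpt : ∀ s : ℂ, (a : ℂ) + (I * t + (s - (a + I * t))) = s := by intro s; ring
  refine ⟨v / (I ^ n * ρ), -φ - Real.pi / 2, div_ne_zero hv (mul_ne_zero hIn hρc), ?_, ?_, ?_⟩
  · intro z hz
    have h2 := h1 z (by linarith)
    rw [hiter] at h2
    have e1 : (a : ℂ) + (I * t + I * z / ω) = a + I * (t + z / ω) := by ring
    rw [e1] at h2
    have e2 : Complex.sin (z - ((-φ - Real.pi / 2 : ℝ) : ℂ)) = Complex.cos (φ + z) := by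
      have : z - ((-φ - Real.pi / 2 : ℝ) : ℂ) = (φ + z) + Real.pi / 2 := by push_cast; ring
      rw [this, Complex.sin_add_pi_div_two]
    rw [e2]
    have e3 : v / (I ^ n * ρ) * iteratedDeriv n Λ (a + I * (t + z / ω)) =
        v * iteratedDeriv n Λ (a + I * (t + z / ω)) / (I ^ n * ρ) := by ring
    rw [e3]
    linarith
  · intro s hs1 hs0
    have h2 := z1 (s - (a + I * t)) hs1 (by rw [hiter, hpt, hs0, mul_zero])
    rw [iter_mul_shift hΛ v a (n + 1), hpt] at h2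
    obtain ⟨h3, h4, k, h5⟩ := h2
    have e1 : (s - (a + I * t)).re = s.re - a := by simp
    have e2 : (s - (a + I * t)).im = s.im - t := by simp
    rw [e1] at h3
    rw [e2] at h5
    exact ⟨by linarith, fun h6 => h4 (by rw [h6, mul_zero]), k, h5⟩
  · intro k hk
    obtain ⟨y, ⟨hy1, hy2⟩, hy3⟩ := z2 k hk
    rw [hiter] at hy1
    refine ⟨(a : ℂ) + (I * t + I * y), ⟨(mul_eq_zero.1 hy1).resolve_left hv, ?_, ?_⟩, ?_⟩
    · simp
    · have e2 : ((a : ℂ) + (I * t + I * y)).im - t = y := by simp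
      rw [e2]
      exact hy2
    · rintro s ⟨hs0, hs1, hs2⟩
      have e1 : (a : ℂ) + (I * t + I * ((s.im - t : ℝ) : ℂ)) = s := by
        rw [← hs1]
        push_cast
        conv_rhs => rw [← Complex.re_add_im s]
        ring
      have h2 := hy3 (s.im - t) ⟨by rw [hiter, e1, hs0, mul_zero], hs2⟩
      rw [← h2, e1]

/-- **The measure of the heights at which the cosine law fails.** -/
theorem final {κ : ℝ} (hκ : 1 / 2 ≤ κ) {Λ : ℂ → ℂ} {v : ℂ} {a : ℝ}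
    (h : PL κ (fun z => v * Λ ((a : ℂ) + z))) (hv : v ≠ 0) (hΛ : Differentiable ℂ Λ) {K ε A : ℝ}
    (hK : 0 < K) (hε : 0 < ε) (hε1 : ε ≤ 1) (hA : 0 < A) :
    ∃ c C : ℝ, 0 < c ∧ 0 < C ∧ ∀ (n : ℕ) (T : ℝ), 0 ≤ T →
      volume {t : ℝ | 0 ≤ t ∧ t ≤ T ∧ ∃ m : ℕ, n ≤ m ∧ (m : ℝ) ≤ A * Real.log (t + 2) ∧
        ¬ Law Λ a K ε (κ * Real.log (t + 2)) m t} ≤
        ENNReal.ofReal (C * Real.exp (-(c * n)) * T) := by
  obtain ⟨c, C, hc, hC, h1⟩ := xmeas (K := K + 2) (ε := ε / 30) (show 0 < 2 * κ by linarith)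
    ((hΛ.comp (by fun_prop)).const_mul v) (pl_wd hκ h) (by linarith) (by positivity) hA
  refine ⟨c, C, hc, hC, fun n T hT => (measure_mono ?_).trans (h1 n T hT)⟩
  rintro t ⟨ht0, htT, m, hm1, hm2, hm3⟩
  refine ⟨ht0, htT, m, hm1, hm2, fun h2 => hm3 ?_⟩
  have hlog : 0 < Real.log (t + 2) := Real.log_pos (by linarith)
  have e : 2 * κ / 2 * Real.log (t + 2) = κ * Real.log (t + 2) := by ring
  rw [e] at h2
  exact law_of_cs hε hε1 hv hΛ (fun z => h.sy.symm z) (mul_pos (by linarith) hlog) h2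

end Pool.Agent.K3h80.CL
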