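import Pool.Agent.K3h80.CL.Fin
import Pool.Agent.Results.MP_7193be_nt.ZeroDensity

/-!
# The derivatives of Hasse-Weil L-functions are locally cosines, outside of exponentially small sets

Let `X` be smooth and projective over `ℤ[1/N]`, `i ≥ 0`, and suppose that `H^i(X)` is (up to semisimplification) a sum
of `κ = n + 1` parts `V(f) (-r)`, where `f` is a newform of any weight `k ≥ 1`, any level and any nebentypus, and
`k + 2r = i + 1` (setting and definitions of the starting file `Pool.Agent.Results.MP_7193be_nt.ZeroDensity`).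
Examples: `H^1` of the modular curves `X_0(M)`, `X_1(M)`, of all elliptic curves over `ℚ`, of all products of abelian
varieties over `ℚ` of `GL_2`-type and of their Weil restrictions from abelian number fields; `H^3` of rigid
Calabi-Yau threefolds over `ℚ`.

Let `Λ = Λ_A(i; X, s)` and `a = (i + 1)/2`.  Part (d) of the problem (all zeros of `Λ` are on the line `Re s = a`)
implies that all zeros of all derivatives `Λ^(m)` are on the line.  Differentiation is expected to even out the
spacings of the zeros (Farmer and Rhoades); at a fixed height and for `m → ∞` the derivatives are close to a cosine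
(Ki for the zeta function).  Here the height is not fixed, and nothing is assumed.

For the height `t` let `ω = κ log (t + 2)`, so that `π / ω` is asymptotically the average gap of the zeros.  The law
`Law a Λ K ε ω m t` says that `Λ^(m)(a + i (t + z/ω))` is, up to a constant factor, within `ε` of `sin (z - θ)` on the
complex disc `|z| ≤ K`; that the zeros of `Λ^(m)` at distance `≤ K / ω` from `a + i t` are simple and on the line;
and that their ordinates are, up to `ε / ω`, the terms `t + (θ + π k) / ω` of an arithmetic progression.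

We prove with no hypothesis: for all `K, A > 0` and `0 < ε ≤ 1` there are `c, C > 0` such that for all `n ≥ 0` and
`T ≥ 0` the heights `t` in `[0, T]` at which this law fails for some order `m` with `n ≤ m ≤ A log (t + 2)` have
measure at most `C exp (-c n) T`.

Proof.  At a given scale `m / log T` the function `Λ` looks, to the right of the line, like an exponential function,
outside of a set of heights of proportion `exp (-c m)` (starting modules `Pool.Agent.Y671`, `Pool.Agent.R838` and many
others: mollified second moments of the L-functions of newforms, shifted convolution sums).  By Cauchy's formula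
`Λ^(m)` is the sum of two half circle integrals `G(z) ± conj G(- conj z)`, and Laplace's method shows that the
logarithmic derivative of `G` is `(m + 1) (1 + o(1))` (`Pool.Agent.K3h80.CL`).
-/

set_option autoImplicit false

namespace Pool.Agent.K3h80.CL.HasseWeil

open MeasureTheory
open Pool.Agent.Results.MP_7193be_nt.ZeroDensity (Part IsCompleted key)

/-- The cosine law for `Λ^(m)` near `a + i t` at the scale `1 / ω`. For some `c ≠ 0` and some phase `θ`:
`c Λ^(m)(a + i (t + z/ω))` is within `ε` of `sin (z - θ)` for all complex `z` with `|z| ≤ K`; every zero `s` of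
`Λ^(m)` with `|s - (a + i t)| ≤ K / ω` has real part `a`, is simple, and `ω (Im s - t)` is within `ε` of a number
`θ + π k`; and for each integer `k` with `|θ + π k| ≤ K` there is exactly one zero `s` with `Re s = a` for which
`ω (Im s - t)` is within `ε` of `θ + π k`. -/
def Law (a : ℝ) (Λ : ℂ → ℂ) (K ε ω : ℝ) (m : ℕ) (t : ℝ) : Prop :=
  ∃ (c : ℂ) (θ : ℝ), c ≠ 0 ∧
    (∀ z : ℂ, ‖z‖ ≤ K →
      ‖c * iteratedDeriv m Λ (a + Complex.I * (t + z / ω)) - Complex.sin (z - θ)‖ ≤ ε) ∧
    (∀ s : ℂ, ‖s - (a + Complex.I * t)‖ ≤ K / ω → iteratedDeriv m Λ s = 0 → s.re = a ∧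
      iteratedDeriv (m + 1) Λ s ≠ 0 ∧ ∃ k : ℤ, |ω * (s.im - t) - (θ + Real.pi * k)| ≤ ε) ∧
    (∀ k : ℤ, |θ + Real.pi * k| ≤ K → ∃! s : ℂ, iteratedDeriv m Λ s = 0 ∧ s.re = a ∧
      |ω * (s.im - t) - (θ + Real.pi * k)| ≤ ε)

/-- **Main theorem.** Let `Λ` be the completed Hasse-Weil L-function with the parts `π_0, …, π_n`.  It exists, is
unique and satisfies the functional equation; and the heights in `[0, T]` at which the cosine law fails for a
derivative of some order between `l` and `A log (t + 2)` have measure at most `C exp (-c l) T`. -/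
theorem result {i n : ℕ} (π : Fin (n + 1) → Part i) :
    ∃ Λ : ℂ → ℂ, IsCompleted π Λ ∧ (∀ Λ' : ℂ → ℂ, IsCompleted π Λ' → Λ' = Λ) ∧
      (∃ W : ℂ, ‖W‖ = 1 ∧ ∀ s : ℂ, Λ (i + 1 - s) = W * (starRingEnd ℂ) (Λ ((starRingEnd ℂ) s))) ∧
      (∀ K ε A : ℝ, 0 < K → 0 < ε → ε ≤ 1 → 0 < A → ∃ c C : ℝ, 0 < c ∧ 0 < C ∧ ∀ (l : ℕ) (T : ℝ), 0 ≤ T →
        volume {t : ℝ | 0 ≤ t ∧ t ≤ T ∧ ∃ m : ℕ, l ≤ m ∧ (m : ℝ) ≤ A * Real.log (t + 2) ∧
          ¬ Law (((i : ℝ) + 1) / 2) Λ K ε (((n : ℝ) + 1) * Real.log (t + 2)) m t} ≤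
          ENNReal.ofReal (C * Real.exp (-(c * l)) * T)) := by
  obtain ⟨Λ, v, hv, h1, h2, h3, h4⟩ := key π
  have hκ : (1 : ℝ) / 2 ≤ ((n + 1 : ℕ) : ℝ) := by
    push_cast
    have : (0 : ℝ) ≤ n := Nat.cast_nonneg n
    linarith
  refine ⟨Λ, h1, h2, h3, ?_⟩
  intro K ε A hK hε hε1 hA
  obtain ⟨c, C, hc, hC, h5⟩ := Pool.Agent.K3h80.CL.final (K := K) (ε := ε) (A := A) hκ h4 hv h1.1 hK hε hε1 hA
  refine ⟨c, C, hc, hC, fun l T hT => (measure_mono ?_).trans (h5 l T hT)⟩
  rintro t ⟨ht0, htT, m, hm1, hm2, hm3⟩
  refine ⟨ht0, htT, m, hm1, hm2, fun h6 => hm3 ?_⟩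
  have e : ((n + 1 : ℕ) : ℝ) = (n : ℝ) + 1 := by push_cast; rfl
  rw [e] at h6
  exact h6.law

end Pool.Agent.K3h80.CL.HasseWeil
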