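import Mathlib

set_option autoImplicit false

/-!
# Zeros of a real entire function which is close to a cosine on a disc
-/

namespace Pool.Agent.K3h80.CL

open Complex Filter Topology Set

/-- points where the complex cosine is small -/
theorem near_zero {u : ℂ} {δ : ℝ} (h : ‖Complex.cos u‖ ≤ δ) :
    ∃ k : ℤ, ‖u - ((Real.pi / 2 + Real.pi * k : ℝ) : ℂ)‖ ≤ 3 * δ := by
  have hδ : 0 ≤ δ := (norm_nonneg _).trans h
  have h1 : ‖Complex.cos u‖ ^ 2 = Real.cos u.re ^ 2 + Real.sinh u.im ^ 2 := by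
    have e : Complex.cos u = ((Real.cos u.re * Real.cosh u.im : ℝ) : ℂ) +
        ((-(Real.sin u.re * Real.sinh u.im) : ℝ) : ℂ) * I := by
      conv_lhs => rw [← Complex.re_add_im u, Complex.cos_add_mul_I]
      push_cast
      ring
    rw [e, ← Complex.normSq_eq_norm_sq, Complex.normSq_add_mul_I]
    have h2 := Real.cosh_sq u.im
    have h3 := Real.sin_sq_add_cos_sq u.re
    nlinarith [h2, h3]
  have h2 : ‖Complex.cos u‖ ^ 2 ≤ δ ^ 2 := pow_le_pow_left₀ (norm_nonneg _) h 2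
  have hc : |Real.cos u.re| ≤ δ := abs_le_of_sq_le_sq (by nlinarith [sq_nonneg (Real.sinh u.im)]) hδ
  have hs : |Real.sinh u.im| ≤ δ := abs_le_of_sq_le_sq (by nlinarith [sq_nonneg (Real.cos u.re)]) hδ
  have him : |u.im| ≤ δ := by
    refine le_trans ?_ hs
    rw [Real.abs_sinh]
    exact Real.self_le_sinh_iff.2 (abs_nonneg _)
  -- the real part
  have hpi := Real.pi_pos
  obtain ⟨k, hk⟩ : ∃ k : ℤ, k = round ((u.re - Real.pi / 2) / Real.pi) := ⟨_, rfl⟩
  refine ⟨k, ?_⟩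
  obtain ⟨y, hy⟩ : ∃ y : ℝ, y = u.re - (Real.pi / 2 + Real.pi * k) := ⟨_, rfl⟩
  have hy1 : |y| ≤ Real.pi / 2 := by
    have h3 := abs_sub_round ((u.re - Real.pi / 2) / Real.pi)
    rw [← hk] at h3
    have e : y = Real.pi * ((u.re - Real.pi / 2) / Real.pi - k) := by
      rw [hy]; field_simp; ring
    rw [e, abs_mul, abs_of_pos hpi]
    nlinarith
  have hcos : |Real.cos u.re| = |Real.sin y| := by
    have e : u.re = y + Real.pi / 2 + k * Real.pi := by rw [hy]; ring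
    rw [e, Real.cos_add_int_mul_pi, Real.cos_add_pi_div_two, abs_mul, abs_neg]
    have : |(-1 : ℝ) ^ k| = 1 := by
      rw [abs_zpow]; simp
    rw [this, one_mul]
  have hsin : 2 / Real.pi * |y| ≤ |Real.sin y| := Real.mul_abs_le_abs_sin hy1
  have hy2 : |y| ≤ 2 * δ := by
    rw [hcos] at hc
    have h4 : 2 / Real.pi * |y| ≤ δ := hsin.trans hc
    have h5 : 2 * |y| ≤ δ * Real.pi := by
      have : 2 / Real.pi * |y| = 2 * |y| / Real.pi := by ring
      rw [this, div_le_iff₀ hpi] at h4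
      exact h4
    have := Real.pi_lt_four
    nlinarith
  have e : u - ((Real.pi / 2 + Real.pi * k : ℝ) : ℂ) = (y : ℂ) + (u.im : ℂ) * I := by
    conv_lhs => rw [← Complex.re_add_im u]
    rw [hy]
    push_cast
    ring
  rw [e]
  refine (norm_add_le _ _).trans ?_
  rw [norm_mul, Complex.norm_I, mul_one, Complex.norm_real, Complex.norm_real, Real.norm_eq_abs,
    Real.norm_eq_abs]
  linarith

/-- `sin` at `π / 2 + π k` -/
theorem sin_node (k : ℤ) : Complex.sin ((Real.pi / 2 + Real.pi * k : ℝ) : ℂ) = (-1) ^ k ∧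
    Complex.cos ((Real.pi / 2 + Real.pi * k : ℝ) : ℂ) = 0 := by
  have e : Real.pi / 2 + Real.pi * k = Real.pi / 2 + k * Real.pi := by ring
  constructor
  · rw [← Complex.ofReal_sin, e, Real.sin_add_int_mul_pi, Real.sin_pi_div_two]
    push_cast
    ring
  · rw [← Complex.ofReal_cos, e, Real.cos_add_int_mul_pi, Real.cos_pi_div_two]
    simp

section

variable {f : ℂ → ℂ} {φ K δ : ℝ}

/-- the derivative near a node -/
theorem deriv_near (hf : Differentiable ℂ f) (hδ : 0 < δ) (hδ1 : δ ≤ 1 / 20)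
    (h : ∀ w : ℂ, ‖w‖ ≤ K + 1 → ‖f w - Complex.cos (φ + w)‖ ≤ δ) {k : ℤ} {v : ℂ} (hv : ‖v‖ ≤ K)
    (hk : ‖φ + v - ((Real.pi / 2 + Real.pi * k : ℝ) : ℂ)‖ ≤ 4 * δ) :
    ‖deriv f v + (-1) ^ k‖ ≤ 1 / 2 := by
  have hcd : Differentiable ℂ (fun w : ℂ => Complex.cos (φ + w)) := by fun_prop
  have h1 : ‖deriv (fun w => f w - Complex.cos (φ + w)) v‖ ≤ δ / 1 := by
    refine Complex.norm_deriv_le_of_forall_mem_sphere_norm_le one_pos
      (hf.sub hcd).diffContOnCl ?_
    intro z hz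
    rw [mem_sphere_iff_norm] at hz
    refine h z ?_
    have e : z = (z - v) + v := by ring
    rw [e]
    refine (norm_add_le _ _).trans ?_
    linarith
  have h2 : deriv (fun w => f w - Complex.cos (φ + w)) v = deriv f v + Complex.sin (φ + v) := by
    have h3 : HasDerivAt (fun w : ℂ => Complex.cos (φ + w)) (-Complex.sin (φ + v)) v := by
      have h4 : HasDerivAt (fun w : ℂ => (φ : ℂ) + w) 1 v := (hasDerivAt_id v).const_add _
      simpa using h4.ccos
    have h5 := ((hf v).hasDerivAt.sub h3).deriv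
    simp only [sub_neg_eq_add] at h5
    exact h5
  rw [h2, div_one] at h1
  obtain ⟨s1, s2⟩ := sin_node k
  obtain ⟨y, hy⟩ : ∃ y : ℂ, y = φ + v - ((Real.pi / 2 + Real.pi * k : ℝ) : ℂ) := ⟨_, rfl⟩
  rw [← hy] at hk
  have h3 : Complex.sin (φ + v) = (-1) ^ k * Complex.cos y := by
    have e : (φ : ℂ) + v = ((Real.pi / 2 + Real.pi * k : ℝ) : ℂ) + y := by rw [hy]; ring
    rw [e, Complex.sin_add, s1, s2]
    ring
  have h4 : ‖Complex.cos y - 1‖ ≤ 1 / 4 := by
    have h5 : ‖y‖ ≤ 1 / 5 := hk.trans (by linarith)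
    have h6 : Complex.cos y - 1 = ((cexp (y * I) - 1) + (cexp (-y * I) - 1)) / 2 := by
      rw [Complex.cos]; ring
    have h7 : ∀ x : ℂ, ‖x‖ ≤ 1 / 5 → ‖cexp x - 1 - x‖ ≤ 1 / 25 := by
      intro x hx
      have := Complex.norm_exp_sub_one_sub_id_le (x := x) (by linarith)
      nlinarith [norm_nonneg x]
    have h8 := h7 (y * I) (by rw [norm_mul, Complex.norm_I, mul_one]; exact h5)
    have h9 := h7 (-y * I) (by rw [norm_mul, Complex.norm_I, mul_one, norm_neg]; exact h5)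
    have e : Complex.cos y - 1 = ((cexp (y * I) - 1 - y * I) + (cexp (-y * I) - 1 - -y * I)) / 2 := by
      rw [h6]; ring
    rw [e, norm_div]
    have h2' : ‖(2 : ℂ)‖ = 2 := by norm_num
    rw [h2', div_le_iff₀ (by norm_num)]
    refine (norm_add_le _ _).trans ?_
    linarith
  have h10 : ‖((-1 : ℂ) ^ k)‖ = 1 := by rw [norm_zpow]; simp
  have e : deriv f v + (-1) ^ k = (deriv f v + Complex.sin (φ + v)) - (-1) ^ k * (Complex.cos y - 1) := by
    rw [h3]; ring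
  rw [e]
  refine (norm_sub_le _ _).trans ?_
  rw [norm_mul, h10, one_mul]
  linarith

/-- at most one zero near a node -/
theorem zero_unique (hf : Differentiable ℂ f) (hδ : 0 < δ) (hδ1 : δ ≤ 1 / 20)
    (h : ∀ w : ℂ, ‖w‖ ≤ K + 1 → ‖f w - Complex.cos (φ + w)‖ ≤ δ) {k : ℤ} {v w : ℂ} (hv : ‖v‖ ≤ K)
    (hw : ‖w‖ ≤ K) (hvk : ‖φ + v - ((Real.pi / 2 + Real.pi * k : ℝ) : ℂ)‖ ≤ 4 * δ)
    (hwk : ‖φ + w - ((Real.pi / 2 + Real.pi * k : ℝ) : ℂ)‖ ≤ 4 * δ) (hv0 : f v = 0) (hw0 : f w = 0) :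
    v = w := by
  obtain ⟨p, hp⟩ : ∃ p : ℂ, p = ((Real.pi / 2 + Real.pi * k : ℝ) : ℂ) - φ := ⟨_, rfl⟩
  obtain ⟨S, hS⟩ : ∃ S : Set ℂ, S = Metric.closedBall 0 K ∩ Metric.closedBall p (4 * δ) := ⟨_, rfl⟩
  have hconv : Convex ℝ S := by
    rw [hS]; exact (convex_closedBall _ _).inter (convex_closedBall _ _)
  have hmem : ∀ x : ℂ, x ∈ S ↔ ‖x‖ ≤ K ∧ ‖φ + x - ((Real.pi / 2 + Real.pi * k : ℝ) : ℂ)‖ ≤ 4 * δ := by
    intro x
    rw [hS, Set.mem_inter_iff, Metric.mem_closedBall, Metric.mem_closedBall, dist_zero_right,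
      dist_eq_norm, hp]
    have e : x - (((Real.pi / 2 + Real.pi * k : ℝ) : ℂ) - φ) =
      φ + x - ((Real.pi / 2 + Real.pi * k : ℝ) : ℂ) := by ring
    rw [e]
  have h1 := hconv.norm_image_sub_le_of_norm_hasDerivWithin_le (𝕜 := ℂ) (f := fun x => f x + (-1) ^ k * x)
    (f' := fun x => deriv f x + (-1) ^ k) (C := 1 / 2) (x := w) (y := v)
    (fun x _ => by
      have h2 := (hf x).hasDerivAt.add ((hasDerivAt_id x).const_mul ((-1 : ℂ) ^ k))
      rw [mul_one] at h2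
      exact h2.hasDerivWithinAt)
    (fun x hx => deriv_near hf hδ hδ1 h ((hmem x).1 hx).1 ((hmem x).1 hx).2)
    ((hmem w).2 ⟨hw, hwk⟩) ((hmem v).2 ⟨hv, hvk⟩)
  rw [hv0, hw0, zero_add, zero_add, ← mul_sub, norm_mul] at h1
  have h10 : ‖((-1 : ℂ) ^ k)‖ = 1 := by rw [norm_zpow]; simp
  rw [h10, one_mul] at h1
  have h3 : ‖v - w‖ = 0 := by
    have := norm_nonneg (v - w)
    linarith
  exact sub_eq_zero.1 (norm_eq_zero.1 h3)

/-- every zero is real, simple and near a node -/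
theorem zero_real (hf : Differentiable ℂ f) (hc : ∀ z, f ((starRingEnd ℂ) z) = (starRingEnd ℂ) (f z))
    (hδ : 0 < δ) (hδ1 : δ ≤ 1 / 20)
    (h : ∀ w : ℂ, ‖w‖ ≤ K + 1 → ‖f w - Complex.cos (φ + w)‖ ≤ δ) {w : ℂ}
    (hw : ‖w‖ ≤ K) (hw0 : f w = 0) : w.im = 0 ∧ deriv f w ≠ 0 ∧
      ∃ k : ℤ, |φ + w.re - (Real.pi / 2 + Real.pi * k)| ≤ 3 * δ := by
  have h1 := h w (by linarith)
  rw [hw0, zero_sub, norm_neg] at h1
  obtain ⟨k, hk⟩ := near_zero h1
  have hk' : ‖φ + (starRingEnd ℂ) w - ((Real.pi / 2 + Real.pi * k : ℝ) : ℂ)‖ ≤ 3 * δ := by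
    have e : φ + (starRingEnd ℂ) w - ((Real.pi / 2 + Real.pi * k : ℝ) : ℂ) =
        (starRingEnd ℂ) (φ + w - ((Real.pi / 2 + Real.pi * k : ℝ) : ℂ)) := by
      rw [map_sub, map_add, Complex.conj_ofReal, Complex.conj_ofReal]
    rw [e, RCLike.norm_conj]
    exact hk
  have h2 : w = (starRingEnd ℂ) w := zero_unique hf hδ hδ1 h hw (by rw [RCLike.norm_conj]; exact hw)
    (hk.trans (by linarith)) (hk'.trans (by linarith)) hw0 (by rw [hc, hw0, map_zero])
  refine ⟨Complex.conj_eq_iff_im.1 h2.symm, ?_, k, ?_⟩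
  · intro h3
    have h4 := deriv_near hf hδ hδ1 h hw (hk.trans (by linarith))
    have h10 : ‖((-1 : ℂ) ^ k)‖ = 1 := by rw [norm_zpow]; simp
    rw [h3, zero_add, h10] at h4
    norm_num at h4
  · have h3 := (Complex.abs_re_le_norm _).trans hk
    simpa using h3

/-- near every node there is a zero -/
theorem zero_exists (hf : Differentiable ℂ f) (hc : ∀ z, f ((starRingEnd ℂ) z) = (starRingEnd ℂ) (f z))
    (hδ : 0 < δ) (hδ1 : δ ≤ 1 / 20)
    (h : ∀ w : ℂ, ‖w‖ ≤ K + 1 → ‖f w - Complex.cos (φ + w)‖ ≤ δ) {k : ℤ}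
    (hk : |Real.pi / 2 + Real.pi * k - φ| ≤ K) :
    ∃ x : ℝ, f x = 0 ∧ |φ + x - (Real.pi / 2 + Real.pi * k)| ≤ 3 * δ := by
  obtain ⟨p, hp⟩ : ∃ p : ℝ, p = Real.pi / 2 + Real.pi * k - φ := ⟨_, rfl⟩
  rw [← hp] at hk
  have hreal : ∀ x : ℝ, (f x).im = 0 := by
    intro x
    have h1 := hc x
    rw [Complex.conj_ofReal] at h1
    exact Complex.conj_eq_iff_im.1 h1.symm
  have hcont : Continuous (fun x : ℝ => (f x).re) :=
    Complex.continuous_re.comp (hf.continuous.comp Complex.continuous_ofReal)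
  have hval : ∀ x : ℝ, |x - p| ≤ 1 → |(f x).re - Real.cos (φ + x)| ≤ δ := by
    intro x hx
    have h1 := h x (by
      rw [Complex.norm_real, Real.norm_eq_abs]
      have := abs_add_le (x - p) p
      rw [sub_add_cancel] at this
      linarith)
    have h2 := (Complex.abs_re_le_norm _).trans h1
    have e : ((φ : ℂ) + x) = ((φ + x : ℝ) : ℂ) := by push_cast; rfl
    rw [e, ← Complex.ofReal_cos, Complex.sub_re, Complex.ofReal_re] at h2
    exact h2
  have hcosx : ∀ y : ℝ, Real.cos (φ + (p + y)) = -((-1) ^ k * Real.sin y) := by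
    intro y
    have e : φ + (p + y) = (y + Real.pi / 2) + k * Real.pi := by rw [hp]; ring
    rw [e, Real.cos_add_int_mul_pi, Real.cos_add_pi_div_two]
    ring
  have hsin : δ < Real.sin (3 * δ) := by
    have h1 := Real.mul_lt_sin (x := 3 * δ) (by positivity) (by have := Real.pi_gt_three; linarith)
    have h2 : δ ≤ 2 / Real.pi * (3 * δ) := by
      have e : 2 / Real.pi * (3 * δ) = 6 / Real.pi * δ := by ring
      rw [e]
      have : 1 ≤ 6 / Real.pi := by
        rw [le_div_iff₀ Real.pi_pos]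
        have := Real.pi_lt_four
        linarith
      nlinarith
    linarith
  have h1 := hval (p + 3 * δ) (by rw [add_sub_cancel_left, abs_of_pos (by positivity)]; linarith)
  have h2 := hval (p + -(3 * δ)) (by rw [add_sub_cancel_left, abs_neg, abs_of_pos (by positivity)]; linarith)
  rw [hcosx] at h1 h2
  rw [Real.sin_neg] at h2
  have hend : ∃ x ∈ Set.Icc (p + -(3 * δ)) (p + 3 * δ), (f x).re = 0 := by
    have hle : p + -(3 * δ) ≤ p + 3 * δ := by linarith
    rcases Int.even_or_odd k with hk2 | hk2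
    · rw [hk2.neg_one_zpow] at h1 h2
      have a1 := abs_le.1 h1
      have a2 := abs_le.1 h2
      have := intermediate_value_Icc' hle hcont.continuousOn
      obtain ⟨x, hx, hx0⟩ := this (show (0 : ℝ) ∈ Set.Icc _ _ from ⟨by linarith [a1.2], by linarith [a2.1]⟩)
      exact ⟨x, hx, hx0⟩
    · rw [hk2.neg_one_zpow] at h1 h2
      have a1 := abs_le.1 h1
      have a2 := abs_le.1 h2
      have := intermediate_value_Icc hle hcont.continuousOn
      obtain ⟨x, hx, hx0⟩ := this (show (0 : ℝ) ∈ Set.Icc _ _ from ⟨by linarith [a2.2], by linarith [a1.1]⟩)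
      exact ⟨x, hx, hx0⟩
  obtain ⟨x, hx, hx0⟩ := hend
  refine ⟨x, Complex.ext hx0 (by rw [hreal]; rfl), ?_⟩
  have e : φ + x - (Real.pi / 2 + Real.pi * k) = x - p := by rw [hp]; ring
  rw [e, abs_le]
  constructor <;> linarith [hx.1, hx.2]

end

end Pool.Agent.K3h80.CL
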