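import Pool.Agent.K3h80.CL.Core
import Pool.Agent.K3h80.CL.Zer
import Pool.Agent.H986R2.K4.AW

set_option autoImplicit false

/-!
# The cosine law at a height
-/

namespace Pool.Agent.K3h80.CL

open Complex Filter Topology MeasureTheory Set
open Pool.Agent.H24R2.DZ (NN)

/-- the `n`-th derivative of `F` is close to a cosine near `i t`, at the scale `1 / ω` -/
def Cs (F : ℂ → ℂ) (K ε ω : ℝ) (n : ℕ) (t : ℝ) : Prop := ∃ ρ φ : ℝ, 0 < ρ ∧ ∀ w : ℂ, ‖w‖ ≤ K →
  ‖iteratedDeriv n F (I * t + I * w / ω) / (I ^ n * ρ) - Complex.cos (φ + w)‖ ≤ ε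

theorem iter_affine {F : ℂ → ℂ} (hF : Differentiable ℂ F) (n : ℕ) (p r z : ℂ) :
    iteratedDeriv n (fun z => F (p + r * z)) z = r ^ n * iteratedDeriv n F (p + r * z) := by
  have h1 : (fun z => F (p + r * z)) = fun z => (fun w => F (p + w)) (r * z) := rfl
  have h2 : Differentiable ℂ (fun w => F (p + w)) := hF.comp (by fun_prop)
  rw [h1, iteratedDeriv_comp_const_mul h2.contDiff r]
  simp only []
  rw [iteratedDeriv_comp_const_add]

theorem cs_of_nn {K ε : ℝ} (hK : 0 < K) (hε : 0 < ε) : ∃ η : ℝ, ∃ n0 : ℕ, 0 < η ∧ 1 ≤ n0 ∧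
    ∀ F : ℂ → ℂ, Differentiable ℂ F → ∀ (n : ℕ) (t r : ℝ), n0 ≤ n → 0 < r →
      NN n η (fun z => F (I * t + r * z)) → Cs F K ε (n / r) n t := by
  obtain ⟨η, n0, hη, hn0, h⟩ := core hK hε
  refine ⟨η, n0, hη, hn0, fun F hF n t r hn hr hNN => ?_⟩
  obtain ⟨ρ, φ, hρ, h1⟩ := h n _ hn hNN
  have hn1 : (1 : ℝ) ≤ n := by exact_mod_cast hn0.trans hn
  have hnc : (n : ℂ) ≠ 0 := by
    have : (0 : ℝ) < n := by linarith
    exact_mod_cast this.ne'
  have hrc : (r : ℂ) ≠ 0 := by exact_mod_cast hr.ne'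
  refine ⟨ρ / r ^ n, φ, by positivity, fun w hw => ?_⟩
  have h2 := h1 w hw
  rw [iter_affine hF] at h2
  have e1 : I * (t : ℂ) + r * (I * w / n) = I * t + I * w / ((n / r : ℝ) : ℂ) := by
    push_cast
    field_simp
  rw [e1] at h2
  have hρc : (ρ : ℂ) ≠ 0 := by exact_mod_cast hρ.ne'
  have hIn : (I ^ n : ℂ) ≠ 0 := pow_ne_zero _ I_ne_zero
  have e2 : (r : ℂ) ^ n * iteratedDeriv n F (I * t + I * w / ((n / r : ℝ) : ℂ)) / (I ^ n * ρ) =
      iteratedDeriv n F (I * t + I * w / ((n / r : ℝ) : ℂ)) / (I ^ n * ((ρ / r ^ n : ℝ) : ℂ)) := by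
    push_cast
    field_simp
  rwa [e2] at h2

theorem cos_lip {φ K : ℝ} {v w : ℂ} (hv : ‖v‖ ≤ K) (hw : ‖w‖ ≤ K) :
    ‖Complex.cos (φ + v) - Complex.cos (φ + w)‖ ≤ Real.exp K * ‖v - w‖ := by
  have h1 := (convex_closedBall (0 : ℂ) K).norm_image_sub_le_of_norm_hasDerivWithin_le (𝕜 := ℂ)
    (f := fun x : ℂ => Complex.cos (φ + x)) (f' := fun x => -Complex.sin (φ + x)) (C := Real.exp K)
    (x := w) (y := v)
    (fun x _ => by
      have h4 : HasDerivAt (fun w : ℂ => (φ : ℂ) + w) 1 x := (hasDerivAt_id x).const_add _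
      have h5 := h4.ccos
      rw [mul_one] at h5
      exact h5.hasDerivWithinAt)
    (fun x hx => by
      rw [mem_closedBall_zero_iff] at hx
      rw [norm_neg, Complex.sin]
      have hI : |x.im| ≤ K := (Complex.abs_im_le_norm x).trans hx
      have e1 : ‖cexp (-(φ + x) * I)‖ ≤ Real.exp K := by
        rw [Complex.norm_exp]
        refine Real.exp_le_exp.2 ?_
        have : (-(φ + x) * I).re = x.im := by simp
        rw [this]
        exact (le_abs_self _).trans hI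
      have e2 : ‖cexp ((φ + x) * I)‖ ≤ Real.exp K := by
        rw [Complex.norm_exp]
        refine Real.exp_le_exp.2 ?_
        have : ((φ + x) * I).re = -x.im := by simp
        rw [this]
        exact (neg_le_abs _).trans hI
      rw [norm_div, norm_mul, Complex.norm_I, mul_one]
      have h2 : ‖(2 : ℂ)‖ = 2 := by norm_num
      rw [h2, div_le_iff₀ (by norm_num)]
      refine (norm_sub_le _ _).trans ?_
      linarith)
    (mem_closedBall_zero_iff.2 hw) (mem_closedBall_zero_iff.2 hv)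
  exact h1

theorem cs_rescale {K ε : ℝ} (hK : 0 < K) (hε : 0 < ε) : ∃ δ : ℝ, 0 < δ ∧ δ ≤ 1 ∧
    ∀ (F : ℂ → ℂ) (n : ℕ) (t ω ω1 : ℝ), 0 < ω → 0 < ω1 → |ω1 / ω - 1| ≤ δ →
      Cs F (K + 1) (ε / 2) ω1 n t → Cs F K ε ω n t := by
  refine ⟨min 1 (min (1 / K) (ε / (2 * K * Real.exp (K + 1)))), lt_min one_pos
    (lt_min (by positivity) (by positivity)), min_le_left _ _, ?_⟩
  rintro F n t ω ω1 hω hω1 hδ ⟨ρ, φ, hρ, h⟩
  have hδ1 : |ω1 / ω - 1| ≤ 1 / K := hδ.trans ((min_le_right _ _).trans (min_le_left _ _))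
  have hδ2 : |ω1 / ω - 1| ≤ ε / (2 * K * Real.exp (K + 1)) :=
    hδ.trans ((min_le_right _ _).trans (min_le_right _ _))
  have hωc : (ω : ℂ) ≠ 0 := by exact_mod_cast hω.ne'
  have hω1c : (ω1 : ℂ) ≠ 0 := by exact_mod_cast hω1.ne'
  refine ⟨ρ, φ, hρ, fun w hw => ?_⟩
  obtain ⟨v, hv⟩ : ∃ v : ℂ, v = w * ((ω1 / ω : ℝ) : ℂ) := ⟨_, rfl⟩
  have hvw : ‖v - w‖ ≤ K * |ω1 / ω - 1| := by
    have e : v - w = w * ((ω1 / ω - 1 : ℝ) : ℂ) := by rw [hv]; push_cast; ring
    rw [e, norm_mul, Complex.norm_real, Real.norm_eq_abs]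
    gcongr
  have hvw1 : ‖v - w‖ ≤ 1 := by
    refine hvw.trans ?_
    calc K * |ω1 / ω - 1| ≤ K * (1 / K) := by gcongr
      _ = 1 := by field_simp
  have hv1 : ‖v‖ ≤ K + 1 := by
    have := norm_add_le (v - w) w
    rw [sub_add_cancel] at this
    linarith
  have h1 := h v hv1
  have e1 : I * v / ω1 = I * w / ω := by
    rw [hv]; push_cast; field_simp
  rw [e1] at h1
  have h2 := cos_lip (φ := φ) hv1 (hw.trans (by linarith : K ≤ K + 1))
  have h3 : Real.exp (K + 1) * ‖v - w‖ ≤ ε / 2 := by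
    calc Real.exp (K + 1) * ‖v - w‖ ≤ Real.exp (K + 1) * (K * (ε / (2 * K * Real.exp (K + 1)))) := by
          gcongr
          exact hvw.trans (by gcongr)
      _ = ε / 2 := by
          have := Real.exp_pos (K + 1)
          field_simp
  have e2 : iteratedDeriv n F (I * t + I * w / ω) / (I ^ n * ρ) - Complex.cos (φ + w) =
      (iteratedDeriv n F (I * t + I * w / ω) / (I ^ n * ρ) - Complex.cos (φ + v)) +
      (Complex.cos (φ + v) - Complex.cos (φ + w)) := by ring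
  rw [e2]
  refine (norm_add_le _ _).trans ?_
  linarith

/-- the zeros near `i t` -/
structure Zs (F : ℂ → ℂ) (K ε ω θ : ℝ) (n : ℕ) (t : ℝ) : Prop where
  zero : ∀ z : ℂ, ‖z‖ ≤ K / ω → iteratedDeriv n F (I * t + z) = 0 → z.re = 0 ∧
    iteratedDeriv (n + 1) F (I * t + z) ≠ 0 ∧ ∃ k : ℤ, |ω * z.im - (θ + Real.pi * k)| ≤ ε
  node : ∀ k : ℤ, |θ + Real.pi * k| ≤ K →
    ∃! y : ℝ, iteratedDeriv n F (I * t + I * y) = 0 ∧ |ω * y - (θ + Real.pi * k)| ≤ ε

theorem zs_of_cs {K ε δ : ℝ} (hδ : 0 < δ) (hδ1 : 3 * δ ≤ ε) (hδ2 : δ ≤ 1 / 30) (hε : ε ≤ 1)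
    {F : ℂ → ℂ} (hd : Differentiable ℂ F) (hs : ∀ z : ℂ, F (-((starRingEnd ℂ) z)) = (starRingEnd ℂ) (F z))
    {n : ℕ} {t ω : ℝ} (hω : 0 < ω) {ρ φ : ℝ} (hρ : 0 < ρ) (h : ∀ w : ℂ, ‖w‖ ≤ K + 2 →
      ‖iteratedDeriv n F (I * t + I * w / ω) / (I ^ n * ρ) - Complex.cos (φ + w)‖ ≤ δ) :
    Zs F K ε ω (-φ - Real.pi / 2) n t := by
  have hωc : (ω : ℂ) ≠ 0 := by exact_mod_cast hω.ne'
  have hρc : (ρ : ℂ) ≠ 0 := by exact_mod_cast hρ.ne'
  have hIn : (I ^ n : ℂ) ≠ 0 := pow_ne_zero _ I_ne_zero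
  obtain ⟨hdn, hsn⟩ := Pool.Agent.H986R2.K4.AWAux.symm_iter hd hs n
  obtain ⟨f, hf⟩ : ∃ f : ℂ → ℂ, f = fun w => iteratedDeriv n F (I * t + I * w / ω) / (I ^ n * ρ) := ⟨_, rfl⟩
  have hfd : Differentiable ℂ f := by
    rw [hf]
    exact (hdn.comp (by fun_prop)).div_const _
  have hfc : ∀ z, f ((starRingEnd ℂ) z) = (starRingEnd ℂ) (f z) := by
    intro z
    rw [hf]
    simp only
    have e1 : I * (t : ℂ) + I * (starRingEnd ℂ) z / ω = -((starRingEnd ℂ) (I * t + I * z / ω)) := by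
      rw [map_add, map_mul, map_div₀, map_mul, Complex.conj_I, Complex.conj_ofReal, Complex.conj_ofReal]
      ring
    rw [e1, hsn, map_div₀, map_mul, map_pow, Complex.conj_I, Complex.conj_ofReal]
    have e2 : (-I) ^ n = (-1) ^ n * I ^ n := by rw [neg_pow]
    rw [e2]
    have e3 : ((-1 : ℂ) ^ n) * (-1) ^ n = 1 := by rw [← mul_pow]; simp
    have h4 : ((-1 : ℂ) ^ n) ≠ 0 := pow_ne_zero _ (by norm_num)
    rw [div_eq_div_iff (mul_ne_zero hIn hρc) (mul_ne_zero (mul_ne_zero h4 hIn) hρc)]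
    calc (-1) ^ n * (starRingEnd ℂ) (iteratedDeriv n F (I * t + I * z / ω)) * ((-1) ^ n * I ^ n * ρ)
        = (((-1 : ℂ) ^ n) * (-1) ^ n) * (starRingEnd ℂ) (iteratedDeriv n F (I * t + I * z / ω)) *
          (I ^ n * ρ) := by ring
      _ = _ := by rw [e3]; ring
  have hf0 : ∀ w, f w = 0 ↔ iteratedDeriv n F (I * t + I * w / ω) = 0 := by
    intro w
    rw [hf]
    simp only [div_eq_zero_iff]
    constructor
    · rintro (h1 | h1)
      · exact h1
      · exact absurd h1 (mul_ne_zero hIn hρc)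
    · exact Or.inl
  have hfder : ∀ w, deriv f w = iteratedDeriv (n + 1) F (I * t + I * w / ω) * (I / ω) / (I ^ n * ρ) := by
    intro w
    rw [hf]
    have h1 : HasDerivAt (fun w : ℂ => I * (t : ℂ) + I * w / ω) (I / ω) w := by
      have := (((hasDerivAt_id w).const_mul I).div_const (ω : ℂ)).const_add (I * (t : ℂ))
      simpa using this
    have h2 : HasDerivAt (iteratedDeriv n F) (iteratedDeriv (n + 1) F (I * t + I * w / ω))
        (I * t + I * w / ω) := by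
      rw [iteratedDeriv_succ]
      exact (hdn _).hasDerivAt
    exact ((HasDerivAt.comp w h2 h1).div_const _).deriv
  have hb1 : ∀ w : ℂ, ‖w‖ ≤ (K + 1) + 1 → ‖f w - Complex.cos (φ + w)‖ ≤ δ := by
    intro w hw
    rw [hf]
    exact h w (by linarith)
  have hδ20 : δ ≤ 1 / 20 := by linarith
  have hre : ∀ w : ℂ, ‖w‖ ≤ K + 1 → f w = 0 → w.im = 0 ∧ deriv f w ≠ 0 ∧
      ∃ k : ℤ, |φ + w.re - (Real.pi / 2 + Real.pi * k)| ≤ 3 * δ :=
    fun w hw hw0 => zero_real hfd hfc hδ hδ20 hb1 hw hw0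
  have hzw : ∀ z : ℂ, I * (z * ω / I) / ω = z := by
    intro z
    field_simp
  refine ⟨?_, ?_⟩
  · intro z hz hz0
    obtain ⟨w, hw⟩ : ∃ w : ℂ, w = z * ω / I := ⟨_, rfl⟩
    have hzw' : I * w / ω = z := by rw [hw]; exact hzw z
    have hwK : ‖w‖ ≤ K := by
      rw [hw, norm_div, norm_mul, Complex.norm_I, div_one, Complex.norm_real, Real.norm_eq_abs,
        abs_of_pos hω]
      exact (le_div_iff₀ hω).1 hz
    obtain ⟨h1, h2, k, h3⟩ := hre w (by linarith) ((hf0 w).2 (by rw [hzw']; exact hz0))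
    have e1 : w = z.im * ω + (-(z.re * ω)) * I := by
      rw [hw, Complex.div_I]
      conv_lhs => rw [← Complex.re_add_im z]
      ring_nf
      rw [Complex.I_sq]
      ring
    have e2 : w.im = -(z.re * ω) := by rw [e1]; simp
    have e3 : w.re = z.im * ω := by rw [e1]; simp
    refine ⟨?_, ?_, k + 1, ?_⟩
    · rw [e2] at h1
      have h4 : z.re * ω = 0 := by linarith
      exact (mul_eq_zero.1 h4).resolve_right hω.ne'
    · rw [hfder, hzw'] at h2
      intro h5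
      apply h2
      rw [h5]
      simp
    · rw [e3] at h3
      push_cast
      have e4 : ω * z.im - (-φ - Real.pi / 2 + Real.pi * (k + 1)) =
        φ + z.im * ω - (Real.pi / 2 + Real.pi * k) := by ring
      rw [e4]
      linarith
  · intro k hk
    have ek : ∀ x : ℝ, φ + x - (Real.pi / 2 + Real.pi * ((k - 1 : ℤ) : ℝ)) =
        x - (-φ - Real.pi / 2 + Real.pi * k) := by
      intro x; push_cast; ring
    obtain ⟨x, hx0, hx⟩ := zero_exists hfd hfc hδ hδ20 hb1 (k := k - 1) (by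
      have e : Real.pi / 2 + Real.pi * ((k - 1 : ℤ) : ℝ) - φ = -φ - Real.pi / 2 + Real.pi * k := by
        push_cast; ring
      rw [e]
      linarith)
    rw [ek] at hx
    refine ⟨x / ω, ⟨?_, ?_⟩, ?_⟩
    · have h1 := (hf0 x).1 hx0
      have e : I * ((x / ω : ℝ) : ℂ) = I * x / ω := by push_cast; ring
      rw [e]
      exact h1
    · rw [mul_div_cancel₀ _ hω.ne']
      linarith
    · rintro y ⟨hy0, hy⟩
      have e : I * (y : ℂ) = I * ((ω * y : ℝ) : ℂ) / ω := by push_cast; field_simp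
      rw [e] at hy0
      have hyf := (hf0 _).2 hy0
      have hyK : ‖((ω * y : ℝ) : ℂ)‖ ≤ K + 1 := by
        rw [Complex.norm_real, Real.norm_eq_abs]
        have := abs_add_le (ω * y - (-φ - Real.pi / 2 + Real.pi * k)) (-φ - Real.pi / 2 + Real.pi * k)
        rw [sub_add_cancel] at this
        linarith
      have hxK : ‖((x : ℝ) : ℂ)‖ ≤ K + 1 := by
        rw [Complex.norm_real, Real.norm_eq_abs]
        have := abs_add_le (x - (-φ - Real.pi / 2 + Real.pi * k)) (-φ - Real.pi / 2 + Real.pi * k)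
        rw [sub_add_cancel] at this
        linarith
      obtain ⟨-, -, j, hj⟩ := hre _ hyK hyf
      rw [Complex.ofReal_re] at hj
      have hjk : j = k - 1 := by
        have h1 : |Real.pi * ((j : ℝ) - (k - 1))| < Real.pi * 1 := by
          have e2 : Real.pi * ((j : ℝ) - (k - 1)) = (ω * y - (-φ - Real.pi / 2 + Real.pi * k)) -
            (φ + ω * y - (Real.pi / 2 + Real.pi * j)) := by ring
          rw [e2]
          refine (abs_sub _ _).trans_lt ?_
          have := Real.pi_gt_three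
          linarith
        rw [abs_mul, abs_of_pos Real.pi_pos] at h1
        have h2 := lt_of_mul_lt_mul_left h1 Real.pi_pos.le
        have h3 : |j - (k - 1)| < 1 := by exact_mod_cast h2
        have := Int.abs_lt_one_iff.1 h3
        linarith
      rw [hjk] at hj
      have hcast : ∀ u : ℝ, |φ + u - (Real.pi / 2 + Real.pi * ((k - 1 : ℤ) : ℝ))| ≤ 3 * δ →
          ‖(φ : ℂ) + (u : ℂ) - ((Real.pi / 2 + Real.pi * ((k - 1 : ℤ) : ℝ) : ℝ) : ℂ)‖ ≤ 4 * δ := by
        intro u hu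
        have e2 : (φ : ℂ) + (u : ℂ) - ((Real.pi / 2 + Real.pi * ((k - 1 : ℤ) : ℝ) : ℝ) : ℂ) =
          ((φ + u - (Real.pi / 2 + Real.pi * ((k - 1 : ℤ) : ℝ)) : ℝ) : ℂ) := by push_cast; ring
        rw [e2, Complex.norm_real, Real.norm_eq_abs]
        linarith
      have h5 : (((ω * y : ℝ)) : ℂ) = ((x : ℝ) : ℂ) := zero_unique (k := k - 1) hfd hδ hδ20 hb1 hyK hxK
        (hcast _ hj) (hcast x (by rw [ek]; exact hx)) hyf hx0
      have h6 : ω * y = x := by exact_mod_cast h5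
      rw [← h6, mul_div_cancel_left₀ _ hω.ne']

end Pool.Agent.K3h80.CL
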