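import Pool.Agent.K3h80.CL.Law
import Pool.Agent.K3h80.LAG.Union
import Pool.Agent.K3h80.LH.Win
import Pool.Agent.Y671.GL.Ddx

set_option autoImplicit false

/-!
# The measure of the heights at which the cosine law fails
-/

namespace Pool.Agent.K3h80.CL

open Complex MeasureTheory Set Filter Topology
open Pool.Agent.H24R2.DZ (NN ra)
open Pool.Agent.H24R2.JP (Om)
open Pool.Agent.R838.LD (HD hung)
open Pool.Agent.Y671.LD (FarOK)

/-- most heights are good at all scales `n ≤ X log T` -/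
def Wd (F : ℂ → ℂ) : Prop := ∀ X δ η : ℝ, 1 ≤ X → 0 < δ → 0 < η → ∃ c C T0 : ℝ, ∃ n0 : ℕ,
  0 < c ∧ 0 < C ∧ 2 ≤ T0 ∧ ∀ (T : ℝ) (n : ℕ), T0 ≤ T → n0 ≤ n → (n : ℝ) ≤ X * Real.log T →
  volume {t : ℝ | T / 2 ≤ t ∧ t ≤ 3 * T ∧ ¬ ∃ r : ℝ, 0 < r ∧ |n / r / Om t - 1| ≤ δ ∧
    NN n η (fun z => F (I * t + r * z))} ≤ ENNReal.ofReal (C * T * Real.exp (-(c * n)))

/-- comparison of logarithms -/
theorem om_ratio {δ : ℝ} (hδ : 0 < δ) : ∃ T0 : ℝ, 2 ≤ T0 ∧ ∀ T t : ℝ, T0 ≤ T → T / 2 ≤ t → t ≤ 3 * T →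
    |Real.log T / 2 / Om t - 1| ≤ δ := by
  refine ⟨2 * Real.exp (2 / δ), ?_, ?_⟩
  · have : 1 ≤ Real.exp (2 / δ) := Real.one_le_exp (by positivity)
    linarith
  intro T t hT h1 h2
  have hE := Real.exp_pos (2 / δ)
  have hT0 : 0 < T := by linarith
  have ht0 : 0 < t := by linarith
  have hlt : 2 / δ ≤ Real.log t := by
    rw [Real.le_log_iff_exp_le ht0]
    linarith
  have hlt0 : 0 < Real.log t := lt_of_lt_of_le (by positivity) hlt
  have h3 : |Real.log T - Real.log t| ≤ 2 := by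
    rw [← Real.log_div hT0.ne' ht0.ne']
    have a1 : T / t ≤ 2 := by rw [div_le_iff₀ ht0]; linarith
    have a2 : 1 / 3 ≤ T / t := by rw [le_div_iff₀ ht0]; linarith
    have a3 : Real.log (T / t) ≤ 2 := by
      have := Real.log_le_sub_one_of_pos (show 0 < T / t by positivity)
      linarith
    have a4 : -2 ≤ Real.log (T / t) := by
      have h5 := Real.one_sub_inv_le_log_of_pos (show 0 < T / t by positivity)
      have h6 : (T / t)⁻¹ ≤ 3 := by
        rw [inv_div, div_le_iff₀ hT0]; linarith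
      linarith
    exact abs_le.2 ⟨a4, a3⟩
  have e : Real.log T / 2 / Om t - 1 = (Real.log T - Real.log t) / Real.log t := by
    have : Om t = Real.log t / 2 := rfl
    rw [this]
    field_simp
  rw [e, abs_div, abs_of_pos hlt0, div_le_iff₀ hlt0]
  have h4 : 2 ≤ δ * Real.log t := by
    have := (div_le_iff₀ hδ).1 hlt
    linarith
  linarith

/-- the two ranges together -/
theorem combine {F : ℂ → ℂ} {X δ η c1 C1 T1 c2 C2 T2 : ℝ} {n1 n2 : ℕ} (hc1 : 0 < c1) (hC1 : 0 < C1)
    (hT1 : 2 ≤ T1) (hc2 : 0 < c2) (hC2 : 0 < C2)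
    (h1 : ∀ (T : ℝ) (n : ℕ), T1 ≤ T → n1 ≤ n → (n : ℝ) ≤ Real.log T / 200 →
      volume {t : ℝ | T / 2 ≤ t ∧ t ≤ 3 * T ∧ ¬ ∃ r : ℝ, 0 < r ∧ |n / r / Om t - 1| ≤ δ ∧
        NN n η (fun z => F (I * t + r * z))} ≤ ENNReal.ofReal (C1 * T * Real.exp (-(c1 * n))))
    (h2 : ∀ (T : ℝ) (n : ℕ), T2 ≤ T → n2 ≤ n → Real.log T / 200 ≤ n → (n : ℝ) ≤ X * Real.log T →
      volume {t : ℝ | T / 2 ≤ t ∧ t ≤ 3 * T ∧ ¬ ∃ r : ℝ, 0 < r ∧ |n / r / Om t - 1| ≤ δ ∧
        NN n η (fun z => F (I * t + r * z))} ≤ ENNReal.ofReal (C2 * T * Real.exp (-(c2 * n)))) :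
    ∃ c C T0 : ℝ, ∃ n0 : ℕ,
      0 < c ∧ 0 < C ∧ 2 ≤ T0 ∧ ∀ (T : ℝ) (n : ℕ), T0 ≤ T → n0 ≤ n → (n : ℝ) ≤ X * Real.log T →
      volume {t : ℝ | T / 2 ≤ t ∧ t ≤ 3 * T ∧ ¬ ∃ r : ℝ, 0 < r ∧ |n / r / Om t - 1| ≤ δ ∧
        NN n η (fun z => F (I * t + r * z))} ≤ ENNReal.ofReal (C * T * Real.exp (-(c * n))) := by
  refine ⟨min c1 c2, C1 + C2, max T1 T2, max n1 n2, lt_min hc1 hc2, by linarith,
    hT1.trans (le_max_left _ _), ?_⟩
  intro T n hT hn hnX
  have hTT1 : T1 ≤ T := (le_max_left _ _).trans hT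
  have hT0 : 0 < T := by linarith
  have hnn : (0 : ℝ) ≤ n := Nat.cast_nonneg n
  rcases le_total (n : ℝ) (Real.log T / 200) with h3 | h3
  · refine (h1 T n hTT1 ((le_max_left _ _).trans hn) h3).trans (ENNReal.ofReal_le_ofReal ?_)
    gcongr
    · linarith
    · exact min_le_left _ _
  · refine (h2 T n ((le_max_right _ _).trans hT) ((le_max_right _ _).trans hn) h3 hnX).trans
      (ENNReal.ofReal_le_ofReal ?_)
    gcongr
    · linarith
    · exact min_le_right _ _

/-- the large scales, from a statement about a fixed range of `r` -/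
theorem large_of {F : ℂ → ℂ} {P : ℝ → Prop} {X δ η T1 c C T2 : ℝ} (hX : 1 ≤ X) (hδ : 0 < δ) (hη : 0 < η)
    (hc : 0 < c) (hC : 0 < C)
    (h1 : ∀ (t : ℝ) (n : ℕ), T1 ≤ t → 0 < (n : ℝ) → 1 / 200 ≤ n / Om t → n / Om t ≤ 4 * X → P t →
      NN n η (fun z => F (I * t + ((n / Om t : ℝ) : ℂ) * z)))
    (h2 : ∀ T : ℝ, T2 ≤ T → volume {t : ℝ | T / 2 ≤ t ∧ t ≤ 3 * T ∧ ¬ P t} ≤
      ENNReal.ofReal (C * T ^ (1 - c))) :
    ∀ (T : ℝ) (n : ℕ), max (max 8 (2 * T1)) T2 ≤ T → 1 ≤ n → Real.log T / 200 ≤ n →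
      (n : ℝ) ≤ X * Real.log T →
      volume {t : ℝ | T / 2 ≤ t ∧ t ≤ 3 * T ∧ ¬ ∃ r : ℝ, 0 < r ∧ |n / r / Om t - 1| ≤ δ ∧
        NN n η (fun z => F (I * t + r * z))} ≤ ENNReal.ofReal (C * T * Real.exp (-(c / X * n))) := by
  intro T n hT hn hn1 hn2
  have hT8 : 8 ≤ T := ((le_max_left _ _).trans (le_max_left _ _)).trans hT
  have hTT1 : 2 * T1 ≤ T := ((le_max_right _ _).trans (le_max_left _ _)).trans hT
  have hTT2 : T2 ≤ T := (le_max_right _ _).trans hT
  have hT0 : 0 < T := by linarith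
  have hlog : 0 < Real.log T := Real.log_pos (by linarith)
  have h3 : volume {t : ℝ | T / 2 ≤ t ∧ t ≤ 3 * T ∧ ¬ ∃ r : ℝ, 0 < r ∧ |n / r / Om t - 1| ≤ δ ∧
        NN n η (fun z => F (I * t + r * z))} ≤ ENNReal.ofReal (C * T ^ (1 - c)) := by
    refine (measure_mono ?_).trans (h2 T hTT2)
    rintro t ⟨ht1, ht2, ht3⟩
    refine ⟨ht1, ht2, fun hfar => ht3 ?_⟩
    have htp : 0 < t := by linarith
    have hlt : 0 < Real.log t := Real.log_pos (by linarith)
    have hOm : Om t = Real.log t / 2 := rfl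
    have hl1 : Real.log t ≤ 2 * Real.log T := by
      have h4 : Real.log t ≤ Real.log (T ^ 2) := Real.log_le_log htp (by nlinarith)
      rwa [Real.log_pow] at h4
    have hl2 : Real.log T ≤ 2 * Real.log t := by
      have h4 : Real.log T ≤ Real.log (t ^ 2) := Real.log_le_log hT0 (by nlinarith)
      rwa [Real.log_pow] at h4
    have hOm0 : 0 < Om t := by rw [hOm]; linarith
    have hnp : (0 : ℝ) < n := by linarith
    have hr : 0 < (n : ℝ) / Om t := by positivity
    refine ⟨n / Om t, hr, ?_, h1 t n (by linarith) hnp ?_ ?_ hfar⟩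
    · have e : (n : ℝ) / (n / Om t) / Om t - 1 = 0 := by
        field_simp
        ring
      rw [e, abs_zero]
      exact hδ.le
    · rw [le_div_iff₀ hOm0, hOm]; linarith
    · rw [div_le_iff₀ hOm0, hOm]
      nlinarith
  refine h3.trans (ENNReal.ofReal_le_ofReal ?_)
  have h4 : T ^ (1 - c) = T * Real.exp (-(c * Real.log T)) := by
    rw [sub_eq_add_neg, Real.rpow_add hT0, Real.rpow_one, Real.rpow_def_of_pos hT0]
    congr 2
    ring
  rw [h4, mul_assoc C T]
  refine mul_le_mul_of_nonneg_left (mul_le_mul_of_nonneg_left (Real.exp_le_exp.2 ?_) hT0.le) hC.le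
  rw [neg_le_neg_iff, div_mul_eq_mul_div, div_le_iff₀ (by linarith)]
  nlinarith

theorem wd_of_hd {B : ℝ} {F : ℂ → ℂ} {FT : ℝ → ℂ → ℂ} {h : ℝ → ℝ} (hD : HD B F FT h) : Wd F := by
  intro X δ η hX hδ hη
  obtain ⟨c, C, a0, T0, hc, hC, ha0, hT0, h1⟩ := hD.good η hη
  obtain ⟨T3, hT3, hrat⟩ := om_ratio hδ
  obtain ⟨R, η2, T1, hR, hη2, hT1, h2⟩ := hung B F FT h hD (1 / 100) (1 / 200) (4 * X) (by norm_num)
    (by norm_num) (by norm_num) (by linarith) η hη
  obtain ⟨c2, C2, T2, hc2, hC2, hT2, h3⟩ := hD.top R (1 / 100 * min (1 / 200) 1 / 10) η2 hR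
    (by norm_num) hη2
  refine combine (c1 := c) (C1 := C) (T1 := max T0 T3) (c2 := c2 / X) (C2 := C2)
    (T2 := max (max 8 (2 * T1)) T2) (n1 := max 1 ⌈a0⌉₊) (n2 := 1) hc hC
    (hT0.trans (le_max_left _ _)) (by positivity) hC2 ?_ ?_
  · intro T n hT hn hnT
    have hTT0 : T0 ≤ T := (le_max_left _ _).trans hT
    have hTT3 : T3 ≤ T := (le_max_right _ _).trans hT
    have hn1 : (1 : ℝ) ≤ n := by exact_mod_cast (le_max_left _ _).trans hn
    have ha0' : a0 ≤ n := Nat.ceil_le.1 ((le_max_right _ _).trans hn)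
    have hlog : 0 < Real.log T := Real.log_pos (by linarith)
    refine (measure_mono ?_).trans (h1 T n hTT0 ha0' hnT)
    rintro t ⟨ht1, ht2, ht3⟩
    refine ⟨ht1, ht2, fun hgd => ht3 ⟨ra T n, ?_, ?_, hgd⟩⟩
    · unfold ra
      have : (0 : ℝ) < n := by linarith
      positivity
    · have e : (n : ℝ) / ra T n = Real.log T / 2 := by
        unfold ra
        have : (0 : ℝ) < n := by linarith
        field_simp
      rw [e]
      exact hrat T t hTT3 ht1 ht2
  · refine large_of (P := fun t => FarOK F R (1 / 100 * min (1 / 200) 1 / 10) η2 t) hX hδ hη hc2 hC2 ?_ ?_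
    · intro t n ht hn hr1 hr2 hfar
      have hOm0 : 0 < Om t := by
        by_contra hcon
        have : (n : ℝ) / Om t ≤ 0 := div_nonpos_of_nonneg_of_nonpos hn.le (not_lt.1 hcon)
        linarith
      have h5 := h2 t (n / Om t) (2 * (n / Om t) ^ 2) ht hr1 hr2 le_rfl hfar
      have h6 : (n : ℝ) / Om t * Om t = n := div_mul_cancel₀ _ hOm0.ne'
      rw [h6] at h5
      refine ⟨h5.diff, h5.symm, fun z hz1 hz2 => ?_, fun z hz1 hz2 => ?_⟩
      · exact h5.far z (by norm_num at hz1 ⊢; exact hz1) hz2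
      · refine (h5.near z (by norm_num at hz1 ⊢; exact hz1) hz2).trans ?_
        refine mul_le_mul_of_nonneg_left (Real.exp_le_exp.2 ?_) (norm_nonneg _)
        nlinarith
    · intro T hT
      exact h3 T hT

/-- **The measure of the bad heights**, for `X` with `X (z / b)` normalised. -/
theorem xmeas {X : ℂ → ℂ} {b : ℝ} (hb : 0 < b) (hX : Differentiable ℂ X)
    (hW : Wd (fun z => X (z / (b : ℂ)))) {K ε A : ℝ} (hK : 0 < K) (hε : 0 < ε) (hA : 0 < A) :
    ∃ c C : ℝ, 0 < c ∧ 0 < C ∧ ∀ (n : ℕ) (T : ℝ), 0 ≤ T →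
    volume {t : ℝ | 0 ≤ t ∧ t ≤ T ∧ ∃ m : ℕ, n ≤ m ∧ ((m : ℝ) ≤ A * Real.log (t + 2) ∧
      ¬ Cs X K ε (b / 2 * Real.log (t + 2)) m t)} ≤
      ENNReal.ofReal (C * Real.exp (-(c * n)) * T) := by
  classical
  obtain ⟨δ, hδ0, hδ1, hresc⟩ := cs_rescale hK hε
  obtain ⟨η, n1, hη, hn1, hnn⟩ := cs_of_nn (K := K + 1) (ε := ε / 2) (by linarith) (by positivity)
  obtain ⟨c, C, T0, n2, hc, hC, hT0, hw⟩ := hW (max 1 (2 * A)) (δ / 4) η (le_max_left _ _) (by positivity) hη
  -- comparison of `log (b t)` and `log (t + 2)`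
  have hcmp : ∃ T1 : ℝ, 2 ≤ T1 ∧ T0 ≤ b * T1 ∧ ∀ t : ℝ, T1 / 2 ≤ t →
      |Real.log (b * t) / Real.log (t + 2) - 1| ≤ δ / 4 ∧ 0 < Real.log (b * t) := by
    have h1 : Tendsto (fun t : ℝ => Real.log (t + 2)) atTop atTop :=
      Real.tendsto_log_atTop.comp (tendsto_atTop_add_const_right _ _ tendsto_id)
    have h2 : ∀ᶠ t : ℝ in atTop, (|Real.log b| + 3) / (δ / 4) ≤ Real.log (t + 2) :=
      h1.eventually_ge_atTop _
    have h3 : Tendsto (fun t : ℝ => b * t) atTop atTop := tendsto_id.const_mul_atTop hb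
    have h4 : ∀ᶠ t : ℝ in atTop, 1 < b * t := h3.eventually_gt_atTop _
    have h5 : ∀ᶠ t : ℝ in atTop, T0 ≤ b * t := h3.eventually_ge_atTop _
    obtain ⟨T2, hT2⟩ := eventually_atTop.1 (h2.and (h4.and h5))
    refine ⟨2 * max T2 2, by have := le_max_right T2 2; linarith, ?_, ?_⟩
    · refine (hT2 (2 * max T2 2) ?_).2.2
      have h6 := le_max_left T2 2
      have h7 := le_max_right T2 2
      linarith
    · intro t ht
      have ht' : max T2 2 ≤ t := by linarith
      have ht2 : 2 ≤ t := (le_max_right _ _).trans ht'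
      obtain ⟨g1, g2, -⟩ := hT2 t ((le_max_left _ _).trans ht')
      refine ⟨?_, Real.log_pos g2⟩
      have hlp : 0 < Real.log (t + 2) := Real.log_pos (by linarith)
      have e : Real.log (b * t) / Real.log (t + 2) - 1 =
          (Real.log b + (Real.log t - Real.log (t + 2))) / Real.log (t + 2) := by
        rw [Real.log_mul hb.ne' (by linarith)]
        field_simp
        ring
      rw [e, abs_div, abs_of_pos hlp, div_le_iff₀ hlp]
      have h6 : |Real.log t - Real.log (t + 2)| ≤ 3 := by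
        rw [← Real.log_div (by linarith) (by linarith)]
        have a0 : 0 < t / (t + 2) := by positivity
        have a1 : t / (t + 2) ≤ 1 := by rw [div_le_one (by linarith)]; linarith
        have a2 := Real.log_le_sub_one_of_pos a0
        have a3 := Real.one_sub_inv_le_log_of_pos a0
        have a4 : (t / (t + 2))⁻¹ ≤ 2 := by
          rw [inv_div, div_le_iff₀ (by linarith)]; linarith
        exact abs_le.2 ⟨by linarith, by linarith⟩
      have h7 : |Real.log b| + 3 ≤ δ / 4 * Real.log (t + 2) := by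
        have := (div_le_iff₀ (show 0 < δ / 4 by positivity)).1 g1
        linarith
      exact (abs_add_le _ _).trans (by linarith)
  obtain ⟨T1, hT1, hT01, hcmp⟩ := hcmp
  obtain ⟨n3, hn3⟩ := exists_nat_gt (A * Real.log (3 * T1 + 2))
  obtain ⟨L, hL⟩ : ∃ L : ℕ → ℝ → ℝ, L = fun (m : ℕ) (t : ℝ) => if ((m : ℝ) ≤ A * Real.log (t + 2) ∧
      ¬ Cs X K ε (b / 2 * Real.log (t + 2)) m t) then 0 else 1 := ⟨_, rfl⟩
  have hL0 : ∀ m t, L m t ≤ 0 ↔ ((m : ℝ) ≤ A * Real.log (t + 2) ∧
      ¬ Cs X K ε (b / 2 * Real.log (t + 2)) m t) := by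
    intro m t
    rw [hL]
    simp only
    split_ifs with h
    · exact ⟨fun _ => h, fun _ => le_rfl⟩
    · exact ⟨fun h2 => absurd h2 (by norm_num), fun h2 => absurd h2 h⟩
  obtain ⟨C', hC', h2⟩ := Pool.Agent.K3h80.LAG.union_bound (L := L) (c := c) (C := C)
    (n0 := max (max n1 n2) n3) hc hC (fun T n hT hn => by
      have hnn1 : n1 ≤ n := ((le_max_left _ _).trans (le_max_left _ _)).trans hn
      have hnn2 : n2 ≤ n := ((le_max_right _ _).trans (le_max_left _ _)).trans hn
      have hnn3 : (n3 : ℝ) ≤ n := by exact_mod_cast (le_max_right _ _).trans hn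
      have hnpos : (0 : ℝ) < n := by
        have : (1 : ℝ) ≤ n := by exact_mod_cast hn1.trans hnn1
        linarith
      simp only [hL0]
      by_cases hcase : T1 ≤ T ∧ (n : ℝ) ≤ max 1 (2 * A) * Real.log (b * T)
      · obtain ⟨hTT1, hnT⟩ := hcase
        have h3 := hw (b * T) n (hT01.trans (by gcongr)) hnn2 hnT
        have h4 : volume {t : ℝ | T / 2 ≤ t ∧ t ≤ 3 * T ∧ ((n : ℝ) ≤ A * Real.log (t + 2) ∧
            ¬ Cs X K ε (b / 2 * Real.log (t + 2)) n t)} ≤
            ENNReal.ofReal (1 / b) * volume {t : ℝ | b * T / 2 ≤ t ∧ t ≤ 3 * (b * T) ∧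
              ¬ ∃ r : ℝ, 0 < r ∧ |n / r / Om t - 1| ≤ δ / 4 ∧
              NN n η (fun z => (fun z => X (z / (b : ℂ))) (I * t + r * z))} := by
          refine Pool.Agent.Y671.GL.vol_scale (by positivity) ?_
          rintro t ⟨k1, k2, k3, k4⟩
          have e : t / (1 / b) = b * t := by field_simp
          rw [e]
          refine ⟨by nlinarith, by nlinarith, ?_⟩
          rintro ⟨r, hr, hr1, hr2⟩
          apply k4
          obtain ⟨g1, g2⟩ := hcmp t (by linarith)
          have hlp : 0 < Real.log (t + 2) := Real.log_pos (by linarith)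
          have hbc : (b : ℂ) ≠ 0 := by exact_mod_cast hb.ne'
          have hNN : NN n η (fun z => X (I * t + ((r / b : ℝ) : ℂ) * z)) := by
            have e2 : (fun z : ℂ => (fun z => X (z / (b : ℂ))) (I * ((b * t : ℝ) : ℂ) + r * z)) =
                fun z => X (I * t + ((r / b : ℝ) : ℂ) * z) := by
              funext z
              show X ((I * ((b * t : ℝ) : ℂ) + r * z) / b) = _
              congr 1
              push_cast
              field_simp
            rw [← e2]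
            exact hr2
          have h5 := hnn X hX n t (r / b) hnn1 (by positivity) hNN
          refine hresc X n t _ _ (by positivity) (by positivity) ?_ h5
          have hOm : Om (b * t) = Real.log (b * t) / 2 := rfl
          rw [hOm] at hr1
          obtain ⟨x, hx⟩ : ∃ x : ℝ, x = n / r / (Real.log (b * t) / 2) := ⟨_, rfl⟩
          obtain ⟨y, hy⟩ : ∃ y : ℝ, y = Real.log (b * t) / Real.log (t + 2) := ⟨_, rfl⟩
          rw [← hx] at hr1
          rw [← hy] at g1
          have e3 : (n : ℝ) / (r / b) / (b / 2 * Real.log (t + 2)) = x * y := by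
            rw [hx, hy]
            field_simp
          rw [e3]
          have e4 : x * y - 1 = (x - 1) * (y - 1) + (x - 1) + (y - 1) := by ring
          rw [e4]
          refine (abs_add_le _ _).trans ?_
          have h7 := abs_add_le ((x - 1) * (y - 1)) (x - 1)
          rw [abs_mul] at h7
          have h8 : |x - 1| * |y - 1| ≤ δ / 4 * 1 :=
            mul_le_mul hr1 (g1.trans (by linarith)) (abs_nonneg _) (by positivity)
          linarith
        refine h4.trans ((mul_le_mul_right h3 _).trans ?_)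
        rw [← ENNReal.ofReal_mul (by positivity)]
        apply ENNReal.ofReal_le_ofReal
        have e : 1 / b * (C * (b * T) * Real.exp (-(c * n))) = C * T * Real.exp (-(c * n)) := by
          field_simp
        rw [e]
      · have hemp : {t : ℝ | T / 2 ≤ t ∧ t ≤ 3 * T ∧ ((n : ℝ) ≤ A * Real.log (t + 2) ∧
            ¬ Cs X K ε (b / 2 * Real.log (t + 2)) n t)} = ∅ := by
          rw [Set.eq_empty_iff_forall_notMem]
          rintro t ⟨k1, k2, k3, -⟩
          have ht0 : 0 < t := by linarith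
          have hlt : Real.log (t + 2) ≤ Real.log (3 * T + 2) := Real.log_le_log (by linarith) (by linarith)
          have k5 : (n : ℝ) ≤ A * Real.log (3 * T + 2) := k3.trans (by gcongr)
          have hTT1 : T1 ≤ T := by
            by_contra hcon
            have h9 : Real.log (3 * T + 2) ≤ Real.log (3 * T1 + 2) :=
              Real.log_le_log (by linarith) (by linarith)
            have : A * Real.log (3 * T + 2) ≤ A * Real.log (3 * T1 + 2) := by gcongr
            linarith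
          apply hcase
          refine ⟨hTT1, ?_⟩
          obtain ⟨g1, g2⟩ := hcmp T (by linarith)
          have hlp : 0 < Real.log (T + 2) := Real.log_pos (by linarith)
          -- `log (3 T + 2) ≤ 2 log (b T)`
          have g3 : 3 / 4 * Real.log (T + 2) ≤ Real.log (b * T) := by
            have h10 := (abs_le.1 g1).1
            have h11 : 3 / 4 ≤ Real.log (b * T) / Real.log (T + 2) := by linarith
            exact (le_div_iff₀ hlp).1 h11
          have g4 : Real.log (3 * T + 2) ≤ 3 / 2 * Real.log (T + 2) := by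
            have h12 : (3 * T + 2) ^ 2 ≤ (T + 2) ^ 3 := by
              nlinarith [mul_nonneg (sq_nonneg (T - 2)) (show (0 : ℝ) ≤ T + 1 by linarith)]
            have h13 := Real.log_le_log (by positivity) h12
            rw [Real.log_pow, Real.log_pow] at h13
            push_cast at h13
            linarith
          have g5 : Real.log (3 * T + 2) ≤ 2 * Real.log (b * T) := by linarith
          calc (n : ℝ) ≤ A * Real.log (3 * T + 2) := k5
            _ ≤ A * (2 * Real.log (b * T)) := by gcongr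
            _ = 2 * A * Real.log (b * T) := by ring
            _ ≤ max 1 (2 * A) * Real.log (b * T) := by
                gcongr
                exact le_max_right _ _
        rw [hemp, measure_empty]
        exact bot_le)
  refine ⟨c, C', hc, hC', fun n T hT => ?_⟩
  have h3 := h2 n T hT
  simp only [hL0] at h3
  exact h3

end Pool.Agent.K3h80.CL
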